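import Pool.Agent.MP_666b32_lc.H56.Cong

set_option autoImplicit false

namespace Pool.Agent.MP_666b32_lc.H56

open Finset

def sg (b : Bool) : ℤ := bif b then 1 else -1

def ng {V : Type} (Y : V × Bool) : V × Bool := (Y.1, !Y.2)

@[simp] theorem ng_ng {V : Type} (Y : V × Bool) : ng (ng Y) = Y := by simp [ng]
@[simp] theorem ng_fst {V : Type} (Y : V × Bool) : (ng Y).1 = Y.1 := rfl
theorem ng_ne {V : Type} (Y : V × Bool) : ng Y ≠ Y := by
  obtain ⟨y, b⟩ := Y; cases b <;> simp [ng]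
theorem eq_or_ng {V : Type} {Y Z : V × Bool} (h : Y.1 = Z.1) : Y = Z ∨ Y = ng Z := by
  obtain ⟨y, b⟩ := Y; obtain ⟨z, c⟩ := Z
  cases b <;> cases c <;> simp_all [ng]
@[simp] theorem sg_not (b : Bool) : sg (!b) = -sg b := by cases b <;> rfl
@[simp] theorem sg_true : sg true = 1 := rfl
@[simp] theorem sg_false : sg false = -1 := rfl
theorem sg_mul_self (b : Bool) : sg b * sg b = 1 := by cases b <;> rfl

structure Dat (V : Type) where
  W : Finset V
  w : V → ℕ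
  e : V
  al : V → V × Bool
  be : V → V × Bool

namespace Dat

variable {V : Type} [DecidableEq V] (D : Dat V)

def val (Y : V × Bool) : ℤ := sg Y.2 * D.w Y.1
def SS : Finset (V × Bool) := D.W ×ˢ univ
def dP (Y : V × Bool) : ℤ := ∏ Z ∈ D.SS.erase Y, (D.val Y - D.val Z)
def dd (x : V) : ℤ := D.val (D.al x) - D.val (D.be x)
def ell : ℚ := -(D.w D.e : ℚ) +
  ∑ x ∈ D.W.erase D.e, ((D.dP (D.e, true) * D.dd x : ℤ) : ℚ) / (D.dP (x, true) : ℤ)
def pt : Option (V × Bool) → ℚ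
  | none => D.ell
  | some Y => D.val Y
def A : Finset (Option (V × Bool)) := insertNone D.SS
/-- The successor of a signed element under the selection `s`. -/
def nx (s : V → Bool) (Y : V × Bool) : V × Bool :=
  bif Y.2 then (bif s Y.1 then D.al Y.1 else ng (D.be Y.1))
  else (bif s Y.1 then D.be Y.1 else ng (D.al Y.1))

structure Good : Prop where
  he : D.e ∈ D.W
  hal : ∀ x ∈ D.W, x ≠ D.e → (D.al x).1 ∈ D.W ∧ (D.al x).1 ≠ x
  hbe : ∀ x ∈ D.W, x ≠ D.e → (D.be x).1 ∈ D.W ∧ (D.be x).1 ≠ x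
  hne : ∀ x ∈ D.W, x ≠ D.e → D.al x ≠ D.be x
  h3 : ∀ z, ∃ x ∈ D.W, x ≠ D.e ∧ x ≠ z
  w1 : ∀ x ∈ D.W, 1 < D.w x
  two : ∀ x ∈ D.W, IsUnit (2 : ZMod (D.w x))
  cop : ∀ x ∈ D.W, ∀ Y Z : V × Bool, Y.1 ∈ D.W → Z.1 ∈ D.W → Y ≠ Z → ¬ (Y.1 = x ∧ Z.1 = x) →
    IsUnit ((D.val Y - D.val Z : ℤ) : ZMod (D.w x))
  rig : ∀ x ∈ D.W, ∀ Y Z A B : V × Bool, Y.1 ∈ D.W → Z.1 ∈ D.W → A.1 ∈ D.W → B.1 ∈ D.W → A ≠ B →
    A.1 ≠ x → B.1 ≠ x → ((D.val Y - D.val Z - (D.val A - D.val B) : ℤ) : ZMod (D.w x)) = 0 →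
    (Y = A ∧ Z = B) ∨ (Y = ng B ∧ Z = ng A)
  rig2 : ∀ x ∈ D.W, ∀ Y Z A B : V × Bool, Y.1 ∈ D.W → Z.1 ∈ D.W → A.1 ∈ D.W → B.1 ∈ D.W → A ≠ B →
    A.1 ≠ x → B.1 ≠ x → ((D.val Y - D.val Z - 2 * (D.val A - D.val B) : ℤ) : ZMod (D.w x)) ≠ 0

omit [DecidableEq V] in
@[simp] theorem mem_SS {Y : V × Bool} : Y ∈ D.SS ↔ Y.1 ∈ D.W := by simp [SS, mem_product]

omit [DecidableEq V] in
@[simp] theorem val_ng (Y : V × Bool) : D.val (ng Y) = -D.val Y := by simp [val, ng]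

omit [DecidableEq V] in
theorem card_SS : D.SS.card = 2 * D.W.card := by simp [SS, mul_comm]

omit [DecidableEq V] in
theorem card_A : D.A.card = 2 * D.W.card + 1 := by simp [A, card_SS]

omit [DecidableEq V] in
@[simp] theorem some_mem_A {Y : V × Bool} : some Y ∈ D.A ↔ Y.1 ∈ D.W := by simp [A]

omit [DecidableEq V] in
@[simp] theorem none_mem_A : none ∈ D.A := by simp [A]

theorem dP_ng {Y : V × Bool} (hY : Y.1 ∈ D.W) : D.dP (ng Y) = -D.dP Y := by
  have h1 : D.dP (ng Y) = ∏ Z ∈ D.SS.erase Y, -(D.val Y - D.val Z) := by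
    unfold dP
    refine prod_nbij' ng ng ?_ ?_ (by simp) (by simp) (fun Z _ => by simp; ring)
    · intro Z hZ
      simp only [mem_erase, mem_SS, ng_fst] at hZ ⊢
      exact ⟨fun e => hZ.1 (by rw [← e, ng_ng]), hZ.2⟩
    · intro Z hZ
      simp only [mem_erase, mem_SS, ng_fst] at hZ ⊢
      exact ⟨fun e => hZ.1 (by simpa using congrArg ng e), hZ.2⟩
  have h2 : Odd (D.SS.erase Y).card := by
    rw [card_erase_of_mem (D.mem_SS.2 hY), card_SS]
    have := card_pos.2 ⟨_, hY⟩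
    exact ⟨D.W.card - 1, by omega⟩
  rw [h1, prod_neg, h2.neg_one_pow, dP]
  ring

variable {D}

omit [DecidableEq V] in
theorem Good.nontriv (G : D.Good) {x : V} (hx : x ∈ D.W) : Nontrivial (ZMod (D.w x)) :=
  haveI : Fact (1 < D.w x) := ⟨G.w1 x hx⟩
  inferInstance

omit [DecidableEq V] in
theorem Good.val_ne (G : D.Good) {Y Z : V × Bool} (hY : Y.1 ∈ D.W) (hZ : Z.1 ∈ D.W) (h : Y ≠ Z) :
    D.val Y - D.val Z ≠ 0 := by
  by_cases h1 : Z.1 = Y.1
  · rcases eq_or_ng h1 with rfl | rfl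
    · exact absurd rfl h
    · have := G.w1 _ hY
      rw [val_ng, val]
      rcases Y with ⟨y, _ | _⟩ <;> simp at this ⊢ <;> omega
  · have := G.nontriv hY
    intro e
    have h2 := G.cop _ hY Y Z hY hZ h (fun h => h1 h.2)
    rw [e] at h2
    simp at h2

theorem Good.dP_ne (G : D.Good) {Y : V × Bool} (hY : Y.1 ∈ D.W) : D.dP Y ≠ 0 :=
  prod_ne_zero_iff.2 fun Z hZ =>
    G.val_ne hY (D.mem_SS.1 (mem_of_mem_erase hZ)) (ne_of_mem_erase hZ).symm

theorem Good.dP_unit (G : D.Good) {x : V} (hx : x ∈ D.W) {Y : V × Bool} (hY : Y.1 ∈ D.W)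
    (h : Y.1 ≠ x) : IsUnit ((D.dP Y : ℤ) : ZMod (D.w x)) := by
  rw [dP, Int.cast_prod, IsUnit.prod_iff]
  exact fun Z hZ => G.cop x hx Y Z hY (D.mem_SS.1 (mem_of_mem_erase hZ))
    (ne_of_mem_erase hZ).symm (fun h' => h h'.1)

omit [DecidableEq V] in
theorem val_self_zero (x : V) (b : Bool) : ((D.val (x, b) : ℤ) : ZMod (D.w x)) = 0 := by
  simp [val]

omit [DecidableEq V] in
theorem Good.val_unit (G : D.Good) {x : V} (hx : x ∈ D.W) {Y : V × Bool} (hY : Y.1 ∈ D.W)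
    (h : Y.1 ≠ x) : IsUnit ((D.val Y : ℤ) : ZMod (D.w x)) := by
  have := G.cop x hx Y (x, true) hY hx (fun e => h (by rw [e])) (fun h' => h h'.1)
  rwa [Int.cast_sub, val_self_zero, sub_zero] at this

omit [DecidableEq V] in
theorem Good.dd_unit (G : D.Good) {x : V} (hx : x ∈ D.W) (hxe : x ≠ D.e) :
    IsUnit ((D.dd x : ℤ) : ZMod (D.w x)) :=
  G.cop x hx _ _ (G.hal x hx hxe).1 (G.hbe x hx hxe).1 (G.hne x hx hxe)
    (fun h => (G.hal x hx hxe).2 h.1)

/-- The basic congruences at `x`. -/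
theorem Good.key (G : D.Good) {x : V} (hx : x ∈ D.W) (hxe : x ≠ D.e) :
    ∃ u : ZMod (D.w x), IsUnit u ∧
      (∀ b, Cg (D.w x) (D.w x / (D.dP (x, b) : ℤ)) (sg b * u)) ∧
      (∀ Y : V × Bool, Y.1 ∈ D.W → Y.1 ≠ x → Cg (D.w x) (D.w x / (D.dP Y : ℤ)) 0) ∧
      Cg (D.w x) (D.w x * D.ell) (D.dP (D.e, true) * D.dd x * u) := by
  have := G.nontriv hx
  have hw : (D.w x : ℚ) ≠ 0 := by have := G.w1 x hx; positivity
  let R : ℤ := ∏ Z ∈ (D.SS.erase (x, true)).erase (x, false), (D.val (x, true) - D.val Z)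
  have hR : IsUnit ((R : ℤ) : ZMod (D.w x)) := by
    rw [Int.cast_prod, IsUnit.prod_iff]
    intro Z hZ
    simp only [mem_erase, mem_SS] at hZ
    refine G.cop x hx _ Z hx hZ.2.2 hZ.2.1.symm (fun h => ?_)
    rcases eq_or_ng (Z := (x, true)) h.2 with h | h
    · exact hZ.2.1 h
    · exact hZ.1 h
  have h1 : D.dP (x, true) = 2 * D.w x * R := by
    rw [dP, ← mul_prod_erase _ _ (show (x, false) ∈ D.SS.erase (x, true) by simp [hx])]
    simp only [val, sg_true, sg_false, R]; ring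
  have h2R : IsUnit ((2 * R : ℤ) : ZMod (D.w x)) := by
    push_cast; exact (G.two x hx).mul hR
  have hu : Cg (D.w x) (D.w x / (D.dP (x, true) : ℤ)) ((2 * R : ℤ) : ZMod (D.w x))⁻¹ := by
    refine ((Cg.int (2 * R)).inv h2R).cast ?_ rfl
    rw [h1]; push_cast; field_simp
  have h0 : ∀ Y : V × Bool, Y.1 ∈ D.W → Y.1 ≠ x → Cg (D.w x) (D.w x / (D.dP Y : ℤ)) 0 :=
    fun Y hY h => (Cg.self.div (Cg.int _) (G.dP_unit hx hY h)).cast rfl (by simp)
  refine ⟨_, isUnit_zmod_inv h2R, fun b => ?_, h0, ?_⟩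
  · cases b
    · have : D.dP (x, false) = -D.dP (x, true) := D.dP_ng (Y := (x, true)) hx
      refine hu.neg.cast ?_ (by simp)
      rw [this]; push_cast; rw [div_neg]
    · exact hu.cast rfl (by simp)
  · have hm : x ∈ D.W.erase D.e := mem_erase.2 ⟨hxe, hx⟩
    have h3 : Cg (D.w x) (∑ y ∈ (D.W.erase D.e).erase x,
        ((D.dP (D.e, true) * D.dd y : ℤ) : ℚ) * (D.w x / (D.dP (y, true) : ℤ))) 0 :=
      Cg.sum_zero fun y hy => ((Cg.int _).mul (h0 (y, true)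
        (mem_of_mem_erase (mem_of_mem_erase hy)) (ne_of_mem_erase hy))).cast rfl (by simp)
    refine (((Cg.self.mul (Cg.int (-(D.w D.e : ℤ)))).add ((Cg.int (D.dP (D.e, true) * D.dd x)).mul hu)).add
      h3).cast ?_ (by simp)
    rw [ell, ← add_sum_erase _ _ hm, mul_add, mul_add, mul_sum, add_assoc]
    refine congrArg₂ (· + ·) (by simp) (congrArg₂ (· + ·) (by ring)
      (sum_congr rfl fun y _ => by ring))

theorem Good.pt_inj (G : D.Good) : Set.InjOn D.pt D.A := by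
  have h1 : ∀ Y : V × Bool, D.ell ≠ D.val Y := by
    intro Y e
    obtain ⟨x, hx, hxe, -⟩ := G.h3 D.e
    obtain ⟨u, hu, -, -, h⟩ := G.key hx hxe
    have := G.nontriv hx
    have h2 := h.sub (Cg.self.mul (Cg.int (D.val Y)))
    rw [e, sub_self, zero_mul, sub_zero] at h2
    exact (((G.dP_unit hx (Y := (D.e, true)) G.he hxe.symm).mul (G.dd_unit hx hxe)).mul hu).ne_zero
      h2.eq_zero
  rintro (_ | Y) hY (_ | Z) hZ e
  · rfl
  · exact absurd e (h1 Z)
  · exact absurd e.symm (h1 Y)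
  · by_contra h
    refine G.val_ne (D.some_mem_A.1 hY) (D.some_mem_A.1 hZ) (fun e => h (by rw [e])) ?_
    simp only [pt, Int.cast_inj] at e
    rw [e, sub_self]

theorem sum_last (F : Option (V × Bool) → ℚ) :
    ∑ y ∈ D.A.erase none, F y / ∏ y' ∈ (D.A.erase none).erase y, (D.pt y - D.pt y') =
      ∑ Y ∈ D.SS, F (some Y) / (D.dP Y : ℤ) := by
  have h1 : D.A.erase none = D.SS.map Function.Embedding.some := by
    ext (_ | Y) <;> simp
  rw [h1, sum_map]
  refine sum_congr rfl fun Y _ => ?_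
  have h2 : (D.SS.map Function.Embedding.some).erase (Function.Embedding.some Y) =
      (D.SS.erase Y).map Function.Embedding.some := (map_erase _ _ _).symm
  rw [h2, prod_map, dP]
  simp [pt]

theorem sum_split (F : V × Bool → ℚ) (he : D.e ∈ D.W) :
    ∑ Y ∈ D.SS, F Y / (D.dP Y : ℤ) = (F (D.e, true) - F (D.e, false)) / (D.dP (D.e, true) : ℤ) +
      ∑ x ∈ D.W.erase D.e, (F (x, true) - F (x, false)) / (D.dP (x, true) : ℤ) := by
  rw [add_sum_erase D.W (fun x => (F (x, true) - F (x, false)) / (D.dP (x, true) : ℤ)) he, SS,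
    sum_product]
  refine sum_congr rfl fun x hx => ?_
  have : D.dP (x, false) = -D.dP (x, true) := D.dP_ng (Y := (x, true)) hx
  simp only [Fintype.univ_bool, mem_singleton, Bool.true_eq_false, not_false_eq_true, sum_insert,
    sum_singleton, this]
  push_cast
  ring

theorem Good.ell_eq (G : D.Good) : (D.ell + D.w D.e) / (D.dP (D.e, true) : ℤ) =
    ∑ x ∈ D.W.erase D.e, (D.dd x : ℚ) / (D.dP (x, true) : ℤ) := by
  have h : ((D.dP (D.e, true) : ℤ) : ℚ) ≠ 0 := by exact_mod_cast G.dP_ne (Y := (D.e, true)) G.he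
  rw [div_eq_iff h, ell, sum_mul]
  simp only [neg_add_cancel_comm]
  exact sum_congr rfl fun x _ => by push_cast; ring

omit [DecidableEq V] in
theorem nx_diff (s : V → Bool) (x : V) :
    D.val (D.nx s (x, true)) - D.val (D.nx s (x, false)) = D.dd x := by
  cases h : s x <;> simp [nx, h, dd]; ring

omit [DecidableEq V] in
theorem Good.nx_mem (G : D.Good) (s : V → Bool) {Y : V × Bool} (hY : Y.1 ∈ D.W) (h : Y.1 ≠ D.e) :
    (D.nx s Y).1 ∈ D.W := by
  have h1 := (G.hal _ hY h).1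
  have h2 := (G.hbe _ hY h).1
  unfold nx
  cases Y.2 <;> cases s Y.1 <;> simpa

/-- From a twin path to compressibility. -/
theorem Good.backward (G : D.Good) (s : V → Bool) {Y0 : V × Bool} (h0 : Y0.1 ∈ D.W)
    (h : ∀ Y : V × Bool, Y.1 ∈ D.W → Y ≠ (D.e, false) →
      Relation.ReflTransGen (fun A B => A.1 ∈ D.W ∧ A.1 ≠ D.e ∧ D.nx s A = B) Y0 Y) :
    Compressible (D.A.image D.pt) (2 * D.W.card - 2) := by
  let τ : Option (V × Bool) → Option (V × Bool) := fun y => y.bind fun Y =>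
    if Y = (D.e, false) then none else if Y = (D.e, true) then some (D.e, false) else some (D.nx s Y)
  have hτ : ∀ Y : V × Bool, Y.1 ≠ D.e → τ (some Y) = some (D.nx s Y) := by
    intro Y hY
    simp only [τ, Option.bind_some]
    rw [if_neg (fun e => hY (by rw [e])), if_neg (fun e => hY (by rw [e]))]
  have hτ1 : τ (some (D.e, true)) = some (D.e, false) := by simp [τ]
  have hτ2 : τ (some (D.e, false)) = none := by simp [τ]
  have hc := card_pos.2 ⟨_, G.he⟩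
  have h1 : ∀ Y : V × Bool, Y.1 ∈ D.W → Y ≠ (D.e, false) →
      Relation.ReflTransGen (fun a b => a ∈ D.A.erase none ∧ τ a = b) (some Y0) (some Y) := by
    intro Y hY hY'
    have := h Y hY hY'
    clear hY hY'
    induction this with
    | refl => exact Relation.ReflTransGen.refl
    | tail _ h ih => exact ih.tail ⟨by simp [h.1], by rw [hτ _ h.2.1, h.2.2]⟩
  have h2 := (h1 (D.e, true) G.he (by simp)).tail ⟨by simp [G.he], hτ1⟩
  have h3 := h2.tail ⟨by simp [G.he], hτ2⟩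
  refine build' G.pt_inj (by rw [card_A]; omega) D.none_mem_A (D.some_mem_A.2 h0) τ ?_ ?_ ?_
  · rintro (_ | Y) hY
    · simp at hY
    · simp only [mem_erase, some_mem_A] at hY
      by_cases h : Y.1 = D.e
      · rcases eq_or_ng (Z := (D.e, true)) h with rfl | rfl
        · simp [hτ1, G.he]
        · exact hτ2 ▸ D.none_mem_A
      · rw [hτ Y h, some_mem_A]; exact G.nx_mem s hY.2 h
  · rintro (_ | Y) hY
    · exact h3
    · by_cases h : Y = (D.e, false)
      · exact h ▸ h2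
      · exact h1 Y (D.some_mem_A.1 hY) h
  · rw [sum_last (fun y => D.pt (τ y)), sum_split (fun Y => D.pt (τ (some Y))) G.he, hτ1, hτ2]
    have : ∑ x ∈ D.W.erase D.e, (D.pt (τ (some (x, true))) - D.pt (τ (some (x, false)))) /
        (D.dP (x, true) : ℤ) = ∑ x ∈ D.W.erase D.e, (D.dd x : ℚ) / (D.dP (x, true) : ℤ) := by
      refine sum_congr rfl fun x hx => ?_
      rw [hτ _ (ne_of_mem_erase hx), hτ _ (ne_of_mem_erase hx), ← nx_diff s x]
      simp [pt]
    rw [this, ← G.ell_eq]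
    simp only [pt, val, sg_false]
    push_cast
    ring

end Dat

end Pool.Agent.MP_666b32_lc.H56
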