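import Pool.Agent.MP_666b32_lc.H56.Interp

set_option autoImplicit false

namespace Pool.Agent.MP_666b32_lc.H56

open Finset

theorem extract' {I : Type*} [DecidableEq I] {A : Finset I} {pt : I → ℚ} (hi : Set.InjOn pt A)
    {K : ℕ} (hK : K + 3 = A.card) (h : Compressible (A.image pt) K) :
    ∃ z ∈ A, ∃ τ : I → I, ∃ r : I → ℕ,
      (∀ y ∈ A.erase z, τ y ∈ A ∧ r (τ y) = r y + 1) ∧ Set.InjOn r A ∧
      (∃ y ∈ A.erase z, τ y = z) ∧
      ∑ y ∈ A.erase z, pt (τ y) / ∏ y' ∈ (A.erase z).erase y, (pt y - pt y') = 0 := by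
  classical
  obtain ⟨z, hz, σ, r, h1, h2, ⟨y0, h3, h3'⟩, h4⟩ :=
    extract (by rw [card_image_of_injOn hi]; exact hK) h
  obtain ⟨z, hzA, rfl⟩ := mem_image.1 hz
  have himg : ∀ (B : Finset I), B ⊆ A → ∀ y ∈ A, (B.image pt).erase (pt y) = (B.erase y).image pt := by
    intro B hB y hy
    ext q
    simp only [mem_erase, mem_image]
    constructor
    · rintro ⟨h, b, hb, rfl⟩
      exact ⟨b, ⟨fun e => h (e ▸ rfl), hb⟩, rfl⟩
    · rintro ⟨b, ⟨h, hb⟩, rfl⟩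
      exact ⟨fun e => h (hi (hB hb) hy e), b, hb, rfl⟩
  rw [himg A Subset.rfl z hzA] at h1 h3 h4
  have h5 : ∀ y ∈ A.erase z, ∃ t ∈ A, pt t = σ (pt y) := fun y hy =>
    mem_image.1 (h1 _ (mem_image_of_mem _ hy)).1
  choose! τ hτ1 hτ2 using h5
  refine ⟨z, hzA, τ, fun y => r (pt y), fun y hy => ⟨hτ1 y hy, ?_⟩, fun a ha b hb e =>
    hi ha hb (h2 (mem_image_of_mem _ ha) (mem_image_of_mem _ hb) e), ?_, ?_⟩
  · simp only; rw [hτ2 y hy]; exact (h1 _ (mem_image_of_mem _ hy)).2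
  · obtain ⟨y, hy, rfl⟩ := mem_image.1 h3
    exact ⟨y, hy, hi (hτ1 y hy) hzA ((hτ2 y hy).trans h3')⟩
  · rw [← h4, sum_image (hi.mono (coe_subset.2 (erase_subset _ _)))]
    refine sum_congr rfl fun y hy => ?_
    rw [hτ2 y hy, himg _ (erase_subset _ _) y (mem_of_mem_erase hy),
      prod_image (hi.mono (coe_subset.2 ((erase_subset _ _).trans (erase_subset _ _))))]

theorem build' {I : Type*} [DecidableEq I] {A : Finset I} {pt : I → ℚ} (hi : Set.InjOn pt A)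
    {K : ℕ} (hK : K + 3 = A.card) {z x : I} (hz : z ∈ A) (hx : x ∈ A) (τ : I → I)
    (hτ : ∀ y ∈ A.erase z, τ y ∈ A)
    (hr : ∀ y ∈ A, Relation.ReflTransGen (fun a b => a ∈ A.erase z ∧ τ a = b) x y)
    (hs : ∑ y ∈ A.erase z, pt (τ y) / ∏ y' ∈ (A.erase z).erase y, (pt y - pt y') = 0) :
    Compressible (A.image pt) K := by
  classical
  have himg : ∀ (B : Finset I), B ⊆ A → ∀ y ∈ A, (B.image pt).erase (pt y) = (B.erase y).image pt := by
    intro B hB y hy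
    ext q
    simp only [mem_erase, mem_image]
    constructor
    · rintro ⟨h, b, hb, rfl⟩
      exact ⟨b, ⟨fun e => h (e ▸ rfl), hb⟩, rfl⟩
    · rintro ⟨b, ⟨h, hb⟩, rfl⟩
      exact ⟨fun e => h (hi (hB hb) hy e), b, hb, rfl⟩
  let σ : ℚ → ℚ := fun q => if h : ∃ y ∈ A, pt y = q then pt (τ h.choose) else 0
  have hσ : ∀ y ∈ A, σ (pt y) = pt (τ y) := by
    intro y hy
    have h : ∃ y' ∈ A, pt y' = pt y := ⟨y, hy, rfl⟩
    simp only [σ, dif_pos h]
    rw [hi h.choose_spec.1 hy h.choose_spec.2]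
  refine build (by rw [card_image_of_injOn hi]; exact hK) (mem_image_of_mem _ hz)
    (mem_image_of_mem _ hx) σ ?_ ?_ ?_
  · rw [himg A Subset.rfl z hz]
    intro q hq
    obtain ⟨y, hy, rfl⟩ := mem_image.1 hq
    rw [hσ y (mem_of_mem_erase hy)]
    exact mem_image_of_mem _ (hτ y hy)
  · intro q hq
    obtain ⟨y, hy, rfl⟩ := mem_image.1 hq
    have := hr y hy
    clear hy hq
    induction this with
    | refl => exact Relation.ReflTransGen.refl
    | @tail a b _ h ih =>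
      refine ih.tail ⟨?_, ?_⟩
      · rw [himg A Subset.rfl z hz]; exact mem_image_of_mem _ h.1
      · rw [hσ a (mem_of_mem_erase h.1), h.2]
  · rw [himg A Subset.rfl z hz, ← hs, sum_image (hi.mono (coe_subset.2 (erase_subset _ _)))]
    refine sum_congr rfl fun y hy => ?_
    rw [hσ y (mem_of_mem_erase hy), himg _ (erase_subset _ _) y (mem_of_mem_erase hy),
      prod_image (hi.mono (coe_subset.2 ((erase_subset _ _).trans (erase_subset _ _))))]

/-- The rational `q` has denominator prime to `w` and reduces to `n` modulo `w`. -/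
def Cg (w : ℕ) (q : ℚ) (n : ZMod w) : Prop :=
  ∃ m d : ℤ, d ≠ 0 ∧ IsUnit (d : ZMod w) ∧ q * d = m ∧ (m : ZMod w) = n * d

variable {w : ℕ}

theorem Cg.int (k : ℤ) : Cg w k k := ⟨k, 1, one_ne_zero, by simp, by simp, by simp⟩

theorem Cg.zero : Cg w 0 0 := by simpa using Cg.int (w := w) 0

theorem Cg.self : Cg w w 0 := by simpa using Cg.int (w := w) w

theorem Cg.eq_zero {n : ZMod w} (h : Cg w 0 n) : n = 0 := by
  obtain ⟨m, d, -, hd, h1, h2⟩ := h
  have : m = 0 := by exact_mod_cast (by simpa using h1.symm : (m : ℚ) = 0)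
  subst this
  exact hd.mul_left_eq_zero.1 (by simpa using h2.symm)

theorem Cg.add {a b : ℚ} {n k : ZMod w} (h1 : Cg w a n) (h2 : Cg w b k) : Cg w (a + b) (n + k) := by
  obtain ⟨m, d, d0, hd, e1, e2⟩ := h1
  obtain ⟨m', d', d0', hd', e1', e2'⟩ := h2
  refine ⟨m * d' + m' * d, d * d', mul_ne_zero d0 d0', by push_cast; exact hd.mul hd', ?_, ?_⟩
  · push_cast; rw [← e1, ← e1']; ring
  · push_cast; rw [e2, e2']; ring

theorem Cg.mul {a b : ℚ} {n k : ZMod w} (h1 : Cg w a n) (h2 : Cg w b k) : Cg w (a * b) (n * k) := by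
  obtain ⟨m, d, d0, hd, e1, e2⟩ := h1
  obtain ⟨m', d', d0', hd', e1', e2'⟩ := h2
  refine ⟨m * m', d * d', mul_ne_zero d0 d0', by push_cast; exact hd.mul hd', ?_, ?_⟩
  · push_cast; rw [← e1, ← e1']; ring
  · push_cast; rw [e2, e2']; ring

theorem Cg.cast {a a' : ℚ} {n n' : ZMod w} (h : Cg w a n) (e : a = a') (e' : n = n') : Cg w a' n' :=
  e ▸ e' ▸ h

theorem Cg.neg {a : ℚ} {n : ZMod w} (h : Cg w a n) : Cg w (-a) (-n) :=
  ((Cg.int (-1)).mul h).cast (by simp) (by simp)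

theorem Cg.sub {a b : ℚ} {n k : ZMod w} (h1 : Cg w a n) (h2 : Cg w b k) : Cg w (a - b) (n - k) :=
  (h1.add h2.neg).cast (by ring) (by ring)

theorem Cg.inv [Nontrivial (ZMod w)] {a : ℚ} {n : ZMod w} (h : Cg w a n) (hn : IsUnit n) :
    Cg w a⁻¹ n⁻¹ := by
  obtain ⟨m, d, d0, hd, e1, e2⟩ := h
  have hm : IsUnit (m : ZMod w) := e2 ▸ hn.mul hd
  have m0 : m ≠ 0 := by rintro rfl; simp at hm
  have a0 : a ≠ 0 := by rintro rfl; exact m0 (by exact_mod_cast (by simpa using e1.symm : (m : ℚ) = 0))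
  refine ⟨d, m, m0, hm, ?_, ?_⟩
  · rw [← e1]; field_simp
  · rw [e2, ← mul_assoc, ZMod.inv_mul_of_unit _ hn, one_mul]

theorem Cg.ne_zero [Nontrivial (ZMod w)] {a : ℚ} {n : ZMod w} (h : Cg w a n) (hn : IsUnit n) :
    a ≠ 0 := by
  rintro rfl
  exact hn.ne_zero h.eq_zero

theorem Cg.div [Nontrivial (ZMod w)] {a b : ℚ} {n k : ZMod w} (h1 : Cg w a n) (h2 : Cg w b k)
    (hk : IsUnit k) : Cg w (a / b) (n * k⁻¹) :=
  (h1.mul (h2.inv hk)).cast (div_eq_mul_inv _ _).symm rfl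

theorem Cg.sum_zero {I : Type*} {T : Finset I} {F : I → ℚ} (h : ∀ y ∈ T, Cg w (F y) 0) :
    Cg w (∑ y ∈ T, F y) 0 :=
  Finset.sum_induction F (fun q => Cg w q 0) (fun _ _ h1 h2 => by simpa using h1.add h2) Cg.zero h

theorem Cg.prod_ex {I : Type*} {T : Finset I} {F : I → ℚ} (h : ∀ y ∈ T, ∃ n, Cg w (F y) n) :
    ∃ n, Cg w (∏ y ∈ T, F y) n :=
  Finset.prod_induction F (fun q => ∃ n, Cg w q n) (fun _ _ ⟨_, h1⟩ ⟨_, h2⟩ => ⟨_, h1.mul h2⟩)
    ⟨_, by simpa using Cg.int 1⟩ h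

/-- If a vanishing sum has only the terms in `U` nonzero modulo `w`, these add up to zero. -/
theorem Cg.of_sum {I : Type*} [DecidableEq I] {T U : Finset I} {F : I → ℚ} (hU : U ⊆ T)
    (hs : ∑ y ∈ T, F y = 0) (h0 : ∀ y ∈ T, y ∉ U → Cg w (F y) 0) {n : ZMod w}
    (hn : Cg w (∑ y ∈ U, F y) n) : n = 0 := by
  have h1 : Cg w (∑ y ∈ T \ U, F y) 0 :=
    Cg.sum_zero fun y hy => h0 y (mem_sdiff.1 hy).1 (mem_sdiff.1 hy).2
  have h2 := h1.add hn
  rw [sum_sdiff hU, hs, zero_add] at h2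
  exact h2.eq_zero

theorem isUnit_zmod_inv {n : ZMod w} (hn : IsUnit n) : IsUnit n⁻¹ :=
  IsUnit.of_mul_eq_one n (ZMod.inv_mul_of_unit _ hn)

end Pool.Agent.MP_666b32_lc.H56
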