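import Mathlib

set_option autoImplicit false

namespace Pool.Agent.MP_666b32_lc.H56

/-- `S` is `K`-compressible: `S` is the set of the first `|S|` iterates of a point of `S` under a real
polynomial of degree at most `K`. -/
def Compressible (S : Finset ℚ) (K : ℕ) : Prop :=
  ∃ f : Polynomial ℝ, f.degree ≤ K ∧ ∃ x₀ ∈ S,
    (fun q : ℚ => (q : ℝ)) '' (S : Set ℚ) =
      (fun i : ℕ => (fun t : ℝ => f.eval t)^[i] (x₀ : ℝ)) '' {i | i < S.card}

end Pool.Agent.MP_666b32_lc.H56
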