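import Pool.Agent.MP_666b32_lc.H56.Alg

set_option autoImplicit false

namespace Pool.Agent.MP_666b32_lc.H56

open Finset

namespace Dat

variable {V : Type} [DecidableEq V] {D : Dat V}

/-- The conclusion of the forward direction. -/
def Twin (D : Dat V) : Prop :=
  ∃ s : V → Bool, ∃ r : V × Bool → ℕ, (∀ Y Z : V × Bool, Y.1 ∈ D.W → Z.1 ∈ D.W → r Y = r Z → Y = Z) ∧
    ∀ Y : V × Bool, Y.1 ∈ D.W → Y.1 ≠ D.e → r (D.nx s Y) = r Y + 1

/-- The extra point is last. -/
theorem Good.last_case (G : D.Good) {τ : Option (V × Bool) → Option (V × Bool)}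
    {r : Option (V × Bool) → ℕ} (h1 : ∀ y ∈ D.A.erase none, τ y ∈ D.A ∧ r (τ y) = r y + 1)
    (h2 : Set.InjOn r D.A) (h3 : ∃ y ∈ D.A.erase none, τ y = none)
    (h4 : ∑ y ∈ D.A.erase none, D.pt (τ y) / ∏ y' ∈ (D.A.erase none).erase y,
      (D.pt y - D.pt y') = 0) : D.Twin := by
  rw [sum_last (fun y => D.pt (τ y))] at h4
  obtain ⟨_ | Z, hZ, hZ'⟩ := h3
  · simp at hZ
  simp only [mem_erase, some_mem_A] at hZ
  replace hZ := hZ.2
  have h1' : ∀ Y : V × Bool, Y.1 ∈ D.W → τ (some Y) ∈ D.A ∧ r (τ (some Y)) = r (some Y) + 1 :=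
    fun Y hY => h1 _ (by simp [hY])
  have h5 : ∀ Y : V × Bool, Y.1 ∈ D.W → Y ≠ Z → ∃ T : V × Bool, T.1 ∈ D.W ∧ τ (some Y) = some T := by
    intro Y hY hne
    rcases h : τ (some Y) with _ | T
    · have e1 := (h1' Y hY).2
      have e2 := (h1' Z hZ).2
      rw [h] at e1; rw [hZ'] at e2
      have := h2 (D.some_mem_A.2 hY) (D.some_mem_A.2 hZ) (by omega)
      exact absurd (Option.some.inj this) hne
    · exact ⟨T, D.some_mem_A.1 (h ▸ (h1' Y hY).1), rfl⟩
  choose! σ hσ1 hσ2 using h5
  have hZe : Z.1 = D.e := by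
    by_contra hxe
    obtain ⟨x, b⟩ := Z
    obtain ⟨u, hu, k1, k2, k3⟩ := G.key hZ hxe
    have := G.nontriv hZ
    have hs : ∑ Y ∈ D.SS, (D.w x : ℚ) * D.w x * (D.pt (τ (some Y)) / (D.dP Y : ℤ)) = 0 := by
      rw [← mul_sum, h4, mul_zero]
    have := Cg.of_sum (w := D.w x) (U := {(x, b)}) (by simpa using hZ) hs (fun Y hY hY' => by
      have hY1 := D.mem_SS.1 hY
      rw [hσ2 Y hY1 (by simpa using hY')]
      obtain ⟨n, hn⟩ : ∃ n, Cg (D.w x) (D.w x / (D.dP Y : ℤ)) n := by
        by_cases h : Y.1 = x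
        · obtain ⟨y, c⟩ := Y; cases h; exact ⟨_, k1 c⟩
        · exact ⟨_, k2 Y hY1 h⟩
      exact ((Cg.self.mul (Cg.int (D.val (σ Y)))).mul hn).cast (by simp only [pt]; ring) (by simp))
      ((k3.mul (k1 b)).cast (by rw [sum_singleton, hZ']; simp only [pt]; ring) rfl)
    refine IsUnit.ne_zero ?_ this
    refine (((G.dP_unit hZ (Y := (D.e, true)) G.he (Ne.symm hxe)).mul (G.dd_unit hZ hxe)).mul hu).mul
      (IsUnit.mul ?_ hu)
    cases b <;> simp
  obtain ⟨z, η⟩ := Z
  simp only at hZe
  subst hZe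
  have hne : ∀ x, x ≠ D.e → ∀ b, (x, b) ≠ (D.e, η) := fun x hx b e => hx (congrArg Prod.fst e)
  have h6 : ∀ x ∈ D.W, x ≠ D.e →
      ((D.val (σ (x, true)) - D.val (σ (x, false)) + sg η * D.dd x : ℤ) : ZMod (D.w x)) = 0 := by
    intro x hx hxe
    obtain ⟨u, hu, k1, k2, k3⟩ := G.key hx hxe
    have := G.nontriv hx
    have hP := G.dP_unit hx (Y := (D.e, true)) G.he hxe.symm
    have hs : ∑ Y ∈ D.SS, (D.w x : ℚ) * (D.pt (τ (some Y)) / (D.dP Y : ℤ)) = 0 := by
      rw [← mul_sum, h4, mul_zero]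
    have hPη : D.dP (D.e, η) = sg η * D.dP (D.e, true) := by
      cases η
      · simpa [ng] using D.dP_ng (Y := (D.e, true)) G.he
      · simp
    have := Cg.of_sum (w := D.w x) (U := {(x, true), (x, false), (D.e, η)})
      (by intro Y hY; simp only [mem_insert, mem_singleton] at hY
          rcases hY with rfl | rfl | rfl <;> simp [hx, G.he]) hs (fun Y hY hY' => by
      have hY1 := D.mem_SS.1 hY
      simp only [mem_insert, mem_singleton, not_or] at hY'
      rw [hσ2 Y hY1 hY'.2.2]
      have h : Y.1 ≠ x := fun h => by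
        rcases eq_or_ng (Z := (x, true)) h with h | h
        · exact hY'.1 h
        · exact hY'.2.1 h
      exact ((Cg.int (D.val (σ Y))).mul (k2 Y hY1 h)).cast (by simp only [pt]; ring) (by simp))
      (((((Cg.int (D.val (σ (x, true)))).mul (k1 true)).add
        ((Cg.int (D.val (σ (x, false)))).mul (k1 false))).add
        ((Cg.int (sg η)).mul (k3.div (Cg.int _) hP))).cast (by
          rw [sum_insert (by simp [hxe]), sum_insert (by simp [hxe]), sum_singleton, hZ',
            hσ2 _ hx (hne x hxe _), hσ2 _ hx (hne x hxe _), hPη]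
          simp only [pt]
          cases η <;> simp <;> ring) rfl)
    rw [← hu.mul_left_eq_zero, ← this]
    have e := ZMod.mul_inv_of_unit _ hP
    push_cast
    simp only [sg_true, sg_false]
    push_cast
    linear_combination (-(sg η : ZMod (D.w x)) * D.dd x * u) * e
  have h7 : ∀ x ∈ D.W, x ≠ D.e →
      D.val (σ (x, true)) - D.val (σ (x, false)) = -sg η * D.dd x ∧
      (η = false → ∃ c, ∀ b, σ (x, b) = D.nx (fun _ => c) (x, b)) := by
    intro x hx hxe
    have a1 := hσ1 (x, true) hx (hne x hxe _)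
    have a2 := hσ1 (x, false) hx (hne x hxe _)
    have := h6 x hx hxe
    cases η
    · rcases G.rig x hx _ _ _ _ a1 a2 (G.hal x hx hxe).1 (G.hbe x hx hxe).1 (G.hne x hx hxe)
        (G.hal x hx hxe).2 (G.hbe x hx hxe).2 (by rw [← this]; congr 1; simp [dd]; ring) with h | h
      · exact ⟨by simp [h.1, h.2, dd], fun _ => ⟨true, fun b => by cases b <;> simp [nx, h.1, h.2]⟩⟩
      · exact ⟨by simp [h.1, h.2, dd]; ring,
          fun _ => ⟨false, fun b => by cases b <;> simp [nx, h.1, h.2]⟩⟩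
    · refine ⟨?_, by simp⟩
      rcases G.rig x hx _ _ _ _ a1 a2 (G.hbe x hx hxe).1 (G.hal x hx hxe).1 (G.hne x hx hxe).symm
        (G.hbe x hx hxe).2 (G.hal x hx hxe).2 (by rw [← this]; congr 1; simp [dd]; ring) with h | h
      · simp [h.1, h.2, dd]
      · simp [h.1, h.2, dd]; ring
  cases η
  · choose! c hc using fun x hx hxe => (h7 x hx hxe).2 rfl
    refine ⟨c, fun Y => r (some Y), fun Y Z hY hZ e =>
      Option.some.inj (h2 (D.some_mem_A.2 hY) (D.some_mem_A.2 hZ) e), fun ⟨x, b⟩ hY hY' => ?_⟩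
    have : D.nx c (x, b) = σ (x, b) := by rw [hc x hY hY' b]; rfl
    simp only
    rw [this, ← hσ2 _ hY (hne x hY' b)]
    exact (h1' _ hY).2
  · exfalso
    rw [sum_split (fun Y => D.pt (τ (some Y))) G.he, hZ', hσ2 (D.e, false) G.he (by simp)] at h4
    have : ∑ x ∈ D.W.erase D.e, (D.pt (τ (some (x, true))) - D.pt (τ (some (x, false)))) /
        (D.dP (x, true) : ℤ) = -∑ x ∈ D.W.erase D.e, (D.dd x : ℚ) / (D.dP (x, true) : ℤ) := by
      rw [← sum_neg_distrib]
      refine sum_congr rfl fun x hx => ?_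
      have hx1 := mem_of_mem_erase hx
      have hx2 := ne_of_mem_erase hx
      rw [hσ2 _ hx1 (hne x hx2 _), hσ2 _ hx1 (hne x hx2 _)]
      simp only [pt]
      rw [← Int.cast_sub, (h7 x hx1 hx2).1]
      push_cast; simp only [sg_true]; push_cast; ring
    rw [this, ← G.ell_eq] at h4
    have hP : ((D.dP (D.e, true) : ℤ) : ℚ) ≠ 0 := by exact_mod_cast G.dP_ne (Y := (D.e, true)) G.he
    have h8 : D.pt (some (σ (D.e, false))) = D.pt (some (D.e, false)) := by
      field_simp at h4
      simp only [pt, val, sg_false] at h4 ⊢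
      push_cast at h4 ⊢
      linarith
    have h9 := G.pt_inj (D.some_mem_A.2 (hσ1 (D.e, false) G.he (by simp))) (D.some_mem_A.2 G.he) h8
    have := (h1' (D.e, false) G.he).2
    rw [hσ2 (D.e, false) G.he (by simp), h9] at this
    omega

theorem Good.term (G : D.Good) {z Y : V × Bool} (hz : z.1 ∈ D.W) (hY : Y.1 ∈ D.W) (h : Y ≠ z) (q : ℚ) :
    q / ∏ y' ∈ (D.A.erase (some z)).erase (some Y), (D.pt (some Y) - D.pt y') =
      q * (D.val Y - D.val z : ℤ) / (D.dP Y : ℤ) / (D.val Y - D.ell) := by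
  have h1 : (D.A.erase (some z)).erase (some Y) = insertNone ((D.SS.erase Y).erase z) := by
    ext (_ | T)
    · simp
    · simp only [mem_erase, ne_eq, Option.some.injEq, some_mem_A, some_mem_insertNone, mem_SS]
      tauto
  have h2 : D.dP Y = (D.val Y - D.val z) * ∏ T ∈ (D.SS.erase Y).erase z, (D.val Y - D.val T) :=
    (mul_prod_erase _ (fun T => D.val Y - D.val T) (mem_erase.2 ⟨h.symm, D.mem_SS.2 hz⟩)).symm
  have h3 : ((D.val Y - D.val z : ℤ) : ℚ) ≠ 0 := by exact_mod_cast G.val_ne hY hz h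
  rw [h1, prod_insertNone, h2, Int.cast_mul, mul_comm q, mul_div_mul_left _ _ h3]
  simp only [pt]
  push_cast
  rw [div_div, mul_comm]

/-- The extra point is not last: impossible. -/
theorem Good.mid_case (G : D.Good) {z : V × Bool} (hz : z.1 ∈ D.W)
    {τ : Option (V × Bool) → Option (V × Bool)} {r : Option (V × Bool) → ℕ}
    (h1 : ∀ y ∈ D.A.erase (some z), τ y ∈ D.A ∧ r (τ y) = r y + 1) (h2 : Set.InjOn r D.A)
    (h4 : ∑ y ∈ D.A.erase (some z), D.pt (τ y) / ∏ y' ∈ (D.A.erase (some z)).erase y,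
      (D.pt y - D.pt y') = 0) : False := by
  set F : Option (V × Bool) → ℚ := fun y => D.pt (τ y) / ∏ y' ∈ (D.A.erase (some z)).erase y,
      (D.pt y - D.pt y') with hF
  have h1' : ∀ Y : V × Bool, Y.1 ∈ D.W → Y ≠ z →
      τ (some Y) ∈ D.A ∧ r (τ (some Y)) = r (some Y) + 1 := fun Y hY h => h1 _ (by simp [hY, h])
  have hinj : ∀ Y T : V × Bool, Y.1 ∈ D.W → Y ≠ z → T.1 ∈ D.W → T ≠ z → τ (some Y) = τ (some T) →
      Y = T := by
    intro Y T hY hY' hT hT' e
    have e1 := (h1' Y hY hY').2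
    have e2 := (h1' T hT hT').2
    rw [e] at e1
    exact Option.some.inj (h2 (D.some_mem_A.2 hY) (D.some_mem_A.2 hT) (by omega))
  -- local information at `x`
  have loc : ∀ x ∈ D.W, x ≠ D.e → ∃ u l : ZMod (D.w x), IsUnit u ∧ IsUnit l ∧
      l = D.dP (D.e, true) * D.dd x * u ∧ Cg (D.w x) (F none) 0 ∧
      (∀ Y T : V × Bool, Y.1 ∈ D.W → Y ≠ z → τ (some Y) = some T → Y.1 ≠ x →
        Cg (D.w x) (F (some Y)) 0) ∧
      (∀ (b : Bool) (T : V × Bool), (x, b) ≠ z → τ (some (x, b)) = some T →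
        Cg (D.w x) (F (some (x, b))) (D.val T * D.val z * sg b * u * l⁻¹)) ∧
      (∀ Y : V × Bool, Y.1 ∈ D.W → Y ≠ z → τ (some Y) = none → Y.1 ≠ x →
        Cg (D.w x) (F (some Y)) (-(D.val Y - D.val z : ℤ) * ((D.dP Y : ℤ) : ZMod (D.w x))⁻¹)) ∧
      (∀ b : Bool, (x, b) ≠ z → τ (some (x, b)) = none →
        Cg (D.w x) (D.w x * F (some (x, b))) (D.val z * sg b * u)) ∧
      (z.1 = x → τ (some (ng z)) = none → Cg (D.w x) (F (some (ng z))) (-2 * u)) := by
    intro x hx hxe
    obtain ⟨u, hu, k1, k2, k3⟩ := G.key hx hxe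
    have := G.nontriv hx
    have hw : (D.w x : ℚ) ≠ 0 := by have := G.w1 x hx; positivity
    have hl := ((G.dP_unit hx (Y := (D.e, true)) G.he hxe.symm).mul (G.dd_unit hx hxe)).mul hu
    set l : ZMod (D.w x) := D.dP (D.e, true) * D.dd x * u with hl'
    have el := ZMod.mul_inv_of_unit _ hl
    have hμ : ∀ Y : V × Bool, Cg (D.w x) (D.w x * (D.val Y - D.ell))⁻¹ (-l⁻¹) := by
      intro Y
      have := ((k3.sub (Cg.self.mul (Cg.int (D.val Y)))).cast rfl (by simp) :
        Cg _ _ l).inv hl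
      exact this.neg.cast (by rw [← inv_neg]; congr 1; ring) rfl
    have hμ' : ∀ Y : V × Bool, Cg (D.w x) (D.val Y - D.ell)⁻¹ 0 := fun Y =>
      (Cg.self.mul (hμ Y)).cast (by field_simp) (by simp)
    refine ⟨u, l, hu, hl, rfl, ?_, ?_, ?_, ?_, ?_, ?_⟩
    · obtain ⟨k4, k5⟩ := h1 none (by simp)
      rcases h : τ none with _ | T
      · rw [h] at k5; omega
      have e : (D.A.erase (some z)).erase none = (D.SS.erase z).map Function.Embedding.some := by
        ext (_ | T) <;> simp
      have hm : ng z ∈ D.SS.erase z := mem_erase.2 ⟨ng_ne z, D.mem_SS.2 hz⟩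
      obtain ⟨n, hn⟩ := Cg.prod_ex (w := D.w x) (T := (D.SS.erase z).erase (ng z))
        (F := fun Y => -((D.val Y : ℚ) - D.ell)⁻¹) (fun Y _ => ⟨_, (hμ' Y).neg⟩)
      refine ((Cg.int (D.val T)).mul ((hμ' (ng z)).neg.mul hn)).cast ?_ (by simp)
      simp only [hF, h, e, prod_map]
      rw [mul_prod_erase _ (fun Y => -((D.val Y : ℚ) - D.ell)⁻¹) hm, div_eq_mul_inv,
        ← prod_inv_distrib]
      congr 1
      exact prod_congr rfl fun Y _ => by simp [pt, ← inv_neg]
    · intro Y T hY hY' h hx'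
      refine ((((Cg.int (D.val T)).mul (Cg.int (D.val Y - D.val z))).mul (k2 Y hY hx')).mul
        (hμ Y)).cast ?_ (by simp)
      simp only [hF]
      rw [G.term hz hY hY', h]
      simp only [pt]; field_simp
    · intro b T hY' h
      refine ((((Cg.int (D.val T)).mul (Cg.int (D.val (x, b) - D.val z))).mul (k1 b)).mul
        (hμ (x, b))).cast ?_ (by rw [Int.cast_sub, val_self_zero]; ring)
      simp only [hF]
      rw [G.term hz hx hY', h]
      simp only [pt]; field_simp
    · intro Y hY hY' h hx'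
      refine (((k3.mul (Cg.int (D.val Y - D.val z))).div (Cg.int _) (G.dP_unit hx hY hx')).mul
        (hμ Y)).cast ?_ ?_
      · simp only [hF]
        rw [G.term hz hY hY', h]
        simp only [pt]; field_simp
      · linear_combination (-(D.val Y - D.val z : ℤ) * ((D.dP Y : ℤ) : ZMod (D.w x))⁻¹) * el
    · intro b hY' h
      refine (((k3.mul (Cg.int (D.val (x, b) - D.val z))).mul (k1 b)).mul (hμ (x, b))).cast ?_ ?_
      · simp only [hF]
        rw [G.term hz hx hY', h]
        simp only [pt]; field_simp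
      · rw [Int.cast_sub, val_self_zero]
        linear_combination ((D.val z : ZMod (D.w x)) * sg b * u) * el
    · intro hzx h
      obtain ⟨b, rfl⟩ : ∃ b, z = (x, b) := ⟨z.2, by rw [← hzx]⟩
      refine (((k3.mul (Cg.int (2 * sg (!b)))).mul (k1 (!b))).mul (hμ (x, !b))).cast ?_ ?_
      · simp only [hF]
        rw [G.term hz (Y := ng (x, b)) hx (ng_ne _), h]
        simp only [pt, ng, val, sg_not]; push_cast; field_simp; ring
      · have e2 : (sg (!b) : ZMod (D.w x)) * sg (!b) = 1 := by rw [← Int.cast_mul, sg_mul_self]; simp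
        push_cast
        linear_combination (-2 * (sg (!b) : ZMod (D.w x)) * sg (!b) * u) * el - 2 * u * e2
  have hsg : ∀ (x : V) (b : Bool), IsUnit (sg b : ZMod (D.w x)) := fun x b => by cases b <;> simp
  by_cases hp : ∃ Z : V × Bool, Z.1 ∈ D.W ∧ Z ≠ z ∧ τ (some Z) = none
  · obtain ⟨Z, hZ, hZz, hZ'⟩ := hp
    have h5 : ∀ Y : V × Bool, Y.1 ∈ D.W → Y ≠ z → Y ≠ Z →
        ∃ T : V × Bool, T.1 ∈ D.W ∧ τ (some Y) = some T := by
      intro Y hY hY' hne
      rcases h : τ (some Y) with _ | T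
      · exact absurd (hinj Y Z hY hY' hZ hZz (h.trans hZ'.symm)) hne
      · exact ⟨T, D.some_mem_A.1 (h ▸ (h1' Y hY hY').1), rfl⟩
    by_cases hze : z.1 = D.e
    · by_cases hZe : Z.1 = D.e
      · -- both over `e`
        obtain ⟨x, hx, hxe, -⟩ := G.h3 D.e
        obtain ⟨u, l, hu, hl, hl', k0, k1, k2, k3, -, -⟩ := loc x hx hxe
        have := G.nontriv hx
        have n1 : ∀ b, (x, b) ≠ z := fun b e => hxe (by rw [← hze, ← e])
        have n2 : ∀ b, (x, b) ≠ Z := fun b e => hxe (by rw [← hZe, ← e])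
        obtain ⟨T1, t1, t1'⟩ := h5 (x, true) hx (n1 _) (n2 _)
        obtain ⟨T2, t2, t2'⟩ := h5 (x, false) hx (n1 _) (n2 _)
        have hZx : Z.1 ≠ x := fun e => hxe (by rw [← e, hZe])
        have := Cg.of_sum (w := D.w x) (U := {some (x, true), some (x, false), some Z})
          (by intro Y hY; simp only [mem_insert, mem_singleton] at hY
              rcases hY with rfl | rfl | rfl <;> simp [hx, hZ, n1, hZz]) h4 (fun y hy hy' => by
            rcases y with _ | Y
            · exact k0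
            simp only [mem_insert, mem_singleton, not_or, Option.some.injEq, mem_erase, ne_eq,
              some_mem_A] at hy hy'
            obtain ⟨T, -, hT⟩ := h5 Y hy.2 hy.1 hy'.2.2
            refine k1 Y T hy.2 hy.1 hT fun h => ?_
            rcases eq_or_ng (Z := (x, true)) h with h | h
            · exact hy'.1 h
            · exact hy'.2.1 h)
          ((((k2 true T1 (n1 _) t1').add (k2 false T2 (n1 _) t2')).add (k3 Z hZ hZz hZ' hZx)).cast
            (by rw [sum_insert (by simp [n2]), sum_insert (by simp [n2]), sum_singleton, add_assoc])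
            rfl)
        have hP := G.dP_unit hx (Y := (D.e, true)) G.he hxe.symm
        have hv := G.val_unit hx hz (fun e => hxe (by rw [← e, hze]))
        have el := ZMod.mul_inv_of_unit _ hl
        rcases eq_or_ng (hZe.trans hze.symm) with h | h
        · exact hZz h
        subst h
        obtain ⟨y, b⟩ := z
        cases hze
        have eP := ZMod.mul_inv_of_unit _ (G.dP_unit hx hZ hZx)
        have hd := D.dP_ng (Y := (D.e, true)) G.he
        cases b
        · refine G.rig2 x hx T1 T2 _ _ t1 t2 (G.hbe x hx hxe).1 (G.hal x hx hxe).1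
            (G.hne x hx hxe).symm (G.hbe x hx hxe).2 (G.hal x hx hxe).2 ?_
          rw [← (hv.mul hu).mul_right_eq_zero]
          rw [val_ng] at this
          simp only [dd, ng, Bool.not_false, sg_true, sg_false] at this hl' eP ⊢
          push_cast at this hl' ⊢
          generalize ((D.dP (D.e, true) : ℤ) : ZMod (D.w x))⁻¹ = Qi at this eP
          generalize ((D.val (D.e, false) : ℤ) : ZMod (D.w x)) = z at this ⊢
          linear_combination l * this - z * u * (D.val T1 - D.val T2) * el - 2 * z * Qi * hl' -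
            2 * z * (D.val (D.al x) - D.val (D.be x)) * u * eP
        · refine G.rig2 x hx T1 T2 _ _ t1 t2 (G.hal x hx hxe).1 (G.hbe x hx hxe).1
            (G.hne x hx hxe) (G.hal x hx hxe).2 (G.hbe x hx hxe).2 ?_
          rw [← (hv.mul hu).mul_right_eq_zero]
          rw [val_ng] at this
          simp only [dd, sg_true, sg_false] at this hl' ⊢
          generalize ((D.dP (ng (D.e, true)) : ℤ) : ZMod (D.w x))⁻¹ = Qi at this eP
          rw [hd] at eP
          push_cast at this hl' eP ⊢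
          generalize ((D.val (D.e, true) : ℤ) : ZMod (D.w x)) = z at this ⊢
          linear_combination l * this - z * u * (D.val T1 - D.val T2) * el - 2 * z * Qi * hl' +
            2 * z * (D.val (D.al x) - D.val (D.be x)) * u * eP
      · -- a pole at the predecessor
        obtain ⟨x, b⟩ := Z
        obtain ⟨u, l, hu, hl, hl', k0, k1, k2, -, k4, -⟩ := loc x hZ hZe
        have := G.nontriv hZ
        have hs : ∑ y ∈ D.A.erase (some z), (D.w x : ℚ) * F y = 0 := by rw [← mul_sum, h4, mul_zero]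
        have := Cg.of_sum (w := D.w x) (U := {some (x, b)}) (by simp [hZz]; exact hZ) hs
          (fun y hy hy' => by
            rcases y with _ | Y
            · simpa using Cg.self.mul k0
            simp only [mem_singleton, Option.some.injEq, mem_erase, ne_eq, some_mem_A] at hy hy'
            obtain ⟨T, -, hT⟩ := h5 Y hy.2 hy.1 hy'
            by_cases h : Y.1 = x
            · obtain ⟨y, c⟩ := Y; cases h
              simpa using Cg.self.mul (k2 c T hy.1 hT)
            · simpa using Cg.self.mul (k1 Y T hy.2 hy.1 hT h))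
          ((k4 b hZz hZ').cast (by rw [sum_singleton]) rfl)
        exact (((G.val_unit hZ hz (fun e => hZe (by rw [← hze, e]))).mul (hsg x b)).mul hu).ne_zero
          this
    · -- look at the last point
      obtain ⟨u, l, hu, hl, hl', k0, k1, k2, k3, -, k5⟩ := loc z.1 hz hze
      have := G.nontriv hz
      obtain ⟨n, hn, hn'⟩ : ∃ n, IsUnit n ∧ Cg (D.w z.1) (F (some Z)) n := by
        by_cases h : Z.1 = z.1
        · rcases eq_or_ng h with h | h
          · exact absurd h hZz
          · subst h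
            exact ⟨_, (G.two _ hz).neg.mul hu, k5 rfl hZ'⟩
        · exact ⟨_, (G.cop _ hz Z z hZ hz hZz (fun h' => h h'.1)).neg.mul
            (isUnit_zmod_inv (G.dP_unit hz hZ h)), k3 Z hZ hZz hZ' h⟩
      refine hn.ne_zero (Cg.of_sum (w := D.w z.1) (U := {some Z}) (by simp [hZz, hZ]) h4
        (fun y hy hy' => ?_) (hn'.cast (by rw [sum_singleton]) rfl))
      rcases y with _ | Y
      · exact k0
      simp only [mem_singleton, Option.some.injEq, mem_erase, ne_eq, some_mem_A] at hy hy'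
      obtain ⟨T, -, hT⟩ := h5 Y hy.2 hy.1 hy'
      by_cases h : Y.1 = z.1
      · obtain ⟨y, c⟩ := Y
        obtain ⟨y', c'⟩ := z
        cases h
        exact (k2 c T hy.1 hT).cast rfl (by rw [val_self_zero]; simp)
      · exact k1 Y T hy.2 hy.1 hT h
  · -- the extra point is first
    have h5 : ∀ Y : V × Bool, Y.1 ∈ D.W → Y ≠ z →
        ∃ T : V × Bool, T.1 ∈ D.W ∧ τ (some Y) = some T := by
      intro Y hY hY'
      rcases h : τ (some Y) with _ | T
      · exact absurd ⟨Y, hY, hY', h⟩ hp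
      · exact ⟨T, D.some_mem_A.1 (h ▸ (h1' Y hY hY').1), rfl⟩
    obtain ⟨x, hx, hxe, hxz⟩ := G.h3 z.1
    obtain ⟨u, l, hu, hl, hl', k0, k1, k2, -, -, -⟩ := loc x hx hxe
    have := G.nontriv hx
    have n1 : ∀ b, (x, b) ≠ z := fun b e => hxz (by rw [← e])
    obtain ⟨T1, t1, t1'⟩ := h5 (x, true) hx (n1 _)
    obtain ⟨T2, t2, t2'⟩ := h5 (x, false) hx (n1 _)
    have := Cg.of_sum (w := D.w x) (U := {some (x, true), some (x, false)})
      (by intro Y hY; simp only [mem_insert, mem_singleton] at hY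
          rcases hY with rfl | rfl <;> simp [hx, n1]) h4 (fun y hy hy' => by
        rcases y with _ | Y
        · exact k0
        simp only [mem_insert, mem_singleton, not_or, Option.some.injEq, mem_erase, ne_eq,
          some_mem_A] at hy hy'
        obtain ⟨T, -, hT⟩ := h5 Y hy.2 hy.1
        refine k1 Y T hy.2 hy.1 hT fun h => ?_
        rcases eq_or_ng (Z := (x, true)) h with h | h
        · exact hy'.1 h
        · exact hy'.2 h)
      (((k2 true T1 (n1 _) t1').add (k2 false T2 (n1 _) t2')).cast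
        (by rw [sum_insert (by simp), sum_singleton]) rfl)
    have hv := G.val_unit hx hz hxz.symm
    have h6 : ((D.val T1 - D.val T2 : ℤ) : ZMod (D.w x)) = 0 := by
      rw [← ((hv.mul hu).mul (isUnit_zmod_inv hl)).mul_right_eq_zero, ← this]
      simp only [sg_true, sg_false]; push_cast; ring
    have hT : T1 ≠ T2 := fun e => by
      have := hinj (x, true) (x, false) hx (n1 _) hx (n1 _) (by rw [t1', t2', e])
      simp at this
    have h7 : T1.1 = x ∧ T2.1 = x := by
      by_contra h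
      exact (G.cop x hx T1 T2 t1 t2 hT h).ne_zero h6
    have e1 := (h1' (x, true) hx (n1 _)).2
    have e2 := (h1' (x, false) hx (n1 _)).2
    rw [t1'] at e1; rw [t2'] at e2
    rcases eq_or_ng (Z := (x, true)) h7.1 with rfl | rfl
    · omega
    rcases eq_or_ng (Z := (x, true)) h7.2 with rfl | rfl
    · simp only [ng, Bool.not_true] at e1 e2; omega
    · exact hT rfl

theorem Good.forward (G : D.Good) (h : Compressible (D.A.image D.pt) (2 * D.W.card - 2)) :
    D.Twin := by
  have hc := card_pos.2 ⟨_, G.he⟩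
  obtain ⟨z, hz, τ, r, h1, h2, h3, h4⟩ := extract' G.pt_inj (by rw [card_A]; omega) h
  rcases z with _ | z
  · exact G.last_case h1 h2 h3 h4
  · exact (G.mid_case (D.some_mem_A.1 hz) h1 h2 h4).elim

end Dat

end Pool.Agent.MP_666b32_lc.H56
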