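import Pool.Agent.MP_666b32_lc.H56.Wt

set_option autoImplicit false

namespace Pool.Agent.MP_666b32_lc.H56

abbrev Vx := ℕ × ℕ × ℕ

def nxt (i : ℕ) : ℕ := if i % 4 = 3 then i - 3 else i + 1
def pre (i : ℕ) : ℕ := if i % 4 = 0 then i + 3 else i - 1
def suc (m i : ℕ) : ℕ := if i + 1 < m then i + 1 else 0
def prv (m i : ℕ) : ℕ := if i = 0 then m - 1 else i - 1
def tt (m q i : ℕ) : Vx := if i + 1 < m then (0, q, i + 1) else (0, q + 1, 0)
def ent (m q i : ℕ) (b : Bool) : Vx := bif b then (1, q, prv m i) else (1, q, i)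

/-- The successor of a vertex in state `b`. -/
def gg (m : ℕ) (ρ : ℕ → ℕ) (ε : ℕ → Bool) (x : Vx) (b : Bool) : Vx :=
  if x.1 = 0 then (if ρ x.2.2 = x.2.1 ∧ b = ε x.2.2 then (3, 0, x.2.2) else ent m x.2.1 x.2.2 b)
  else if x.1 = 1 then (bif b then tt m x.2.1 (suc m x.2.2) else tt m x.2.1 x.2.2)
  else if x.1 = 2 then (if b = ε x.2.2 then ent m (ρ x.2.2) x.2.2 b else (2, 0, nxt x.2.2))
  else (if b = ε (pre x.2.2) then (2, 0, x.2.2) else (3, 0, pre x.2.2))

/-- Ordinary vertices. -/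
def Ord (m : ℕ) (x : Vx) : Prop :=
  x.2.2 < m ∧ ((x.1 ≤ 1 ∧ x.2.1 < m) ∨ ((x.1 = 2 ∨ x.1 = 3) ∧ x.2.1 = 0))

instance (m : ℕ) (x : Vx) : Decidable (Ord m x) := by unfold Ord; infer_instance

def Wl (m : ℕ) : List Vx :=
  (0, m, 0) :: (4, 0, 0) :: (List.range 4 ×ˢ List.range m ×ˢ List.range m).filter fun x => Ord m x

theorem mem_Wl {m : ℕ} {x : Vx} : x ∈ Wl m ↔ x = (0, m, 0) ∨ x = (4, 0, 0) ∨ Ord m x := by
  obtain ⟨k, q, i⟩ := x
  simp only [Wl, List.mem_cons, List.mem_filter, decide_eq_true_eq]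
  refine or_congr_right (or_congr_right ⟨fun h => h.2, fun h => ⟨List.pair_mem_product.2 ⟨?_,
    List.pair_mem_product.2 ⟨?_, ?_⟩⟩, h⟩⟩) <;> simp only [Ord, List.mem_range] at h ⊢ <;> omega

theorem nodup_Wl (m : ℕ) : (Wl m).Nodup := by
  refine List.nodup_cons.2 ⟨?_, List.nodup_cons.2 ⟨?_, ?_⟩⟩
  · simp [Ord]
  · simp [Ord]
  · exact (List.nodup_range.product (List.nodup_range.product List.nodup_range)).filter _

def gal (m : ℕ) (ρ : ℕ → ℕ) (ε : ℕ → Bool) (x : Vx) : Vx × Bool :=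
  if x = (0, m, 0) then ((4, 0, 0), true) else (gg m ρ ε x true, true)
def gbe (m : ℕ) (ρ : ℕ → ℕ) (ε : ℕ → Bool) (x : Vx) : Vx × Bool :=
  if x = (0, m, 0) then ((0, 0, 0), true) else (gg m ρ ε x false, false)

def gad (m : ℕ) (ρ : ℕ → ℕ) (ε : ℕ → Bool) : Dat Vx where
  W := (Wl m).toFinset
  w := wt (Wl m)
  e := (4, 0, 0)
  al := gal m ρ ε
  be := gbe m ρ ε

variable {m : ℕ} {ρ : ℕ → ℕ} {ε : ℕ → Bool}

theorem Ord.ne_last {x : Vx} (h : Ord m x) : x ≠ (0, m, 0) := by
  rintro rfl; simp [Ord] at h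
theorem Ord.ne_e {x : Vx} (h : Ord m x) : x ≠ (4, 0, 0) := by
  rintro rfl; simp [Ord] at h
theorem Ord.mem {x : Vx} (h : Ord m x) : x ∈ (gad m ρ ε).W :=
  List.mem_toFinset.2 (mem_Wl.2 (Or.inr (Or.inr h)))

theorem gg_mem (h4 : m % 4 = 0) (hρ : ∀ i < m, ρ i < m) {x : Vx} (h : Ord m x) (b : Bool) :
    (gg m ρ ε x b = (0, m, 0) ∨ Ord m (gg m ρ ε x b)) ∧ gg m ρ ε x b ≠ x := by
  obtain ⟨k, q, i⟩ := x
  have := hρ i h.1
  simp only [Ord] at h
  simp only [gg, ent, tt, suc, prv, nxt, pre, Ord]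
  cases b <;> simp only [cond_true, cond_false] <;> split_ifs <;>
    simp only [Prod.mk.injEq, ne_eq, true_and, and_true, true_or, or_true] <;> omega

theorem nx_gad (s : Vx → Bool) {x : Vx} (h : Ord m x) (c : Bool) :
    (gad m ρ ε).nx s (x, c) = (gg m ρ ε x (s x == c), c) := by
  cases c <;> cases hs : s x <;> simp [Dat.nx, gad, gal, gbe, h.ne_last, hs, ng]

theorem gad_good (h0 : 0 < m) (h4 : m % 4 = 0) (hρ : ∀ i < m, ρ i < m) : (gad m ρ ε).Good := by
  have hb : Ord m (0, 0, 0) := by simp [Ord, h0]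
  have hc : ∀ x ∈ (gad m ρ ε).W, x ≠ (4, 0, 0) → x = (0, m, 0) ∨ Ord m x := by
    intro x hx hx'
    rcases mem_Wl.1 (List.mem_toFinset.1 hx) with h | h | h
    exacts [Or.inl h, absurd h hx', Or.inr h]
  have hd : ∀ x, x = (0, m, 0) ∨ Ord m x → x ∈ (gad m ρ ε).W := by
    rintro x (h | h)
    exacts [List.mem_toFinset.2 (mem_Wl.2 (Or.inl h)), h.mem]
  have he : (4, 0, 0) ∈ (gad m ρ ε).W := List.mem_toFinset.2 (mem_Wl.2 (Or.inr (Or.inl rfl)))
  refine good_of_wt (l := Wl m) rfl rfl he (fun x hx hx' => ?_) (fun x hx hx' => ?_)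
    (fun x hx hx' => ?_) (fun z => ?_)
  · rcases hc x hx hx' with rfl | h
    · simp only [gad, gal, if_true]; exact ⟨he, by simp⟩
    · simp only [gad, gal, if_neg h.ne_last]
      exact ⟨hd _ (gg_mem h4 hρ h _).1, (gg_mem h4 hρ h _).2⟩
  · rcases hc x hx hx' with rfl | h
    · simp only [gad, gbe, if_true]; exact ⟨hd _ (Or.inr hb), hb.ne_last⟩
    · simp only [gad, gbe, if_neg h.ne_last]
      exact ⟨hd _ (gg_mem h4 hρ h _).1, (gg_mem h4 hρ h _).2⟩
  · simp only [gad, gal, gbe]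
    split_ifs <;> simp
  · by_cases h : z = (0, 0, 0)
    · exact ⟨(0, m, 0), hd _ (Or.inl rfl), by simp [gad], h ▸ hb.ne_last.symm⟩
    · exact ⟨(0, 0, 0), hb.mem, hb.ne_e, Ne.symm h⟩

/-- Every block of four slots contains a true literal. -/
def Hit (m : ℕ) (ρ : ℕ → ℕ) (ε : ℕ → Bool) (X : ℕ → Bool) : Prop :=
  ∀ j, 4 * j < m → ∃ p < 4, X (ρ (4 * j + p)) = ε (4 * j + p)

theorem gad_forward (h4 : m % 4 = 0) (hρ : ∀ i < m, ρ i < m) (h : (gad m ρ ε).Twin) :
    ∃ X : ℕ → Bool, ∀ c : Bool, Hit m ρ ε fun q => X q == c := by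
  obtain ⟨s, r, h1, h2⟩ := h
  have h3 : ∀ (x : Vx) (c : Bool), Ord m x → r (gg m ρ ε x (s x == c), c) = r (x, c) + 1 :=
    fun x c hx => by rw [← nx_gad s hx]; exact h2 (x, c) hx.mem hx.ne_e
  have same : ∀ (x y : Vx) (b : Bool), Ord m x → Ord m y → x ≠ y →
      gg m ρ ε x b = gg m ρ ε y (!b) → s x = s y := by
    intro x y b hx hy hne e
    by_contra hs
    have e1 := h3 x (s x == b) hx
    have e2 := h3 y (s x == b) hy
    rw [show (s x == (s x == b)) = b by cases s x <;> cases b <;> rfl] at e1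
    rw [show (s y == (s x == b)) = !b by
      revert hs; cases s x <;> cases s y <;> cases b <;> simp, ← e] at e2
    have := h1 (x, s x == b) (y, s x == b) hx.mem hy.mem (by omega)
    exact hne (congrArg Prod.fst this)
  have pn : ∀ i, pre (nxt i) = i := fun i => by unfold pre nxt; split_ifs <;> omega
  have nl : ∀ i < m, nxt i < m := fun i hi => by unfold nxt; split_ifs <;> omega
  have hu : ∀ i < m, s (2, 0, i) = s (0, ρ i, i) := by
    intro i hi
    have := hρ i hi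
    have := nl i hi
    rw [same (2, 0, i) (3, 0, nxt i) (!ε i) (by simp [Ord, hi]) (by simp [Ord]; omega) (by simp)
      (by simp [gg, pn]), same (0, ρ i, i) (3, 0, nxt i) (ε i) (by simp [Ord]; omega)
      (by simp [Ord]; omega) (by simp) (by simp [gg, pn])]
  have ex : ∀ q < m, ∀ i < m, ∀ b, ∃ x, Ord m x ∧ x.2.2 = i ∧ s x = s (0, q, i) ∧
      gg m ρ ε x b = ent m q i b := by
    intro q hq i hi b
    by_cases h : ρ i = q ∧ b = ε i
    · exact ⟨(2, 0, i), by simp [Ord, hi], rfl, h.1 ▸ hu i hi, by simp [gg, h.1, ← h.2]⟩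
    · exact ⟨(0, q, i), by simp [Ord, hi, hq], rfl, rfl, by simp only [gg, if_true, if_neg h]⟩
  have row : ∀ q < m, ∀ i < m, s (0, q, i) = s (0, q, 0) := by
    intro q hq i
    induction i with
    | zero => intro _; rfl
    | succ i ih =>
      intro hi
      obtain ⟨x, x1, x2, x3, x4⟩ := ex q hq i (by omega) false
      obtain ⟨y, y1, y2, y3, y4⟩ := ex q hq (i + 1) hi true
      rw [← y3, ← same x y false x1 y1 (fun e => by rw [e] at x2; omega)
        (by rw [x4, Bool.not_false, y4]; simp [ent, prv]), x3, ih (by omega)]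
  refine ⟨fun q => s (0, q, 0), fun c j hj => ?_⟩
  by_contra hn
  push Not at hn
  have h5 : ∀ p < 4, r ((2, 0, nxt (4 * j + p)), c) = r ((2, 0, 4 * j + p), c) + 1 := by
    intro p hp
    have hi : 4 * j + p < m := by omega
    rw [← h3 _ c (by simp [Ord, hi]), hu _ hi, row _ (hρ _ hi) _ hi]
    simp only [gg, if_neg (hn p hp)]
    simp
  have e0 := h5 0 (by omega)
  have e1 := h5 1 (by omega)
  have e2 := h5 2 (by omega)
  have e3 := h5 3 (by omega)
  rw [show nxt (4 * j + 0) = 4 * j + 1 by unfold nxt; split_ifs <;> omega] at e0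
  rw [show nxt (4 * j + 1) = 4 * j + 2 by unfold nxt; split_ifs <;> omega] at e1
  rw [show nxt (4 * j + 2) = 4 * j + 3 by unfold nxt; split_ifs <;> omega] at e2
  rw [show nxt (4 * j + 3) = 4 * j + 0 by unfold nxt; split_ifs <;> omega] at e3
  omega

def row (ρ : ℕ → ℕ) (x : Vx) : ℕ :=
  if x.1 ≤ 1 then x.2.1 else if x.1 = 2 then ρ x.2.2 else ρ (pre x.2.2)

theorem reach (h0 : 0 < m) (h4 : m % 4 = 0) (hρ : ∀ i < m, ρ i < m) {X : ℕ → Bool}
    (h : Hit m ρ ε X) (x : Vx) (hx : x = (0, m, 0) ∨ Ord m x) :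
    Relation.ReflTransGen (fun x y => Ord m x ∧ gg m ρ ε x (X (row ρ x)) = y) (0, 0, 0) x := by
  set R := Relation.ReflTransGen (fun x y => Ord m x ∧ gg m ρ ε x (X (row ρ x)) = y) with hR
  have pn : ∀ i, pre (nxt i) = i := fun i => by unfold pre nxt; split_ifs <;> omega
  have np : ∀ i, nxt (pre i) = i := fun i => by unfold pre nxt; split_ifs <;> omega
  have nl : ∀ i < m, nxt i < m := fun i hi => by unfold nxt; split_ifs <;> omega
  have pl : ∀ i < m, pre i < m := fun i hi => by unfold pre; split_ifs <;> omega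
  have a1 : ∀ k, ∀ i < m, X (ρ (pre^[k] (pre i))) = ε (pre^[k] (pre i)) → R (3, 0, i) (2, 0, i) := by
    intro k
    induction k with
    | zero =>
      intro i hi h
      exact Relation.ReflTransGen.single ⟨by simp [Ord, hi], by simpa [gg, row] using h⟩
    | succ k ih =>
      intro i hi h
      by_cases h' : X (ρ (pre i)) = ε (pre i)
      · exact Relation.ReflTransGen.single ⟨by simp [Ord, hi], by simp [gg, row, h']⟩
      · exact (Relation.ReflTransGen.head ⟨by simp [Ord, hi], by simp [gg, row, h']⟩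
          (ih _ (pl i hi) h)).tail ⟨by simp [Ord, pl i hi], by simp [gg, row, h', np]⟩
  have a2 : ∀ i < m, R (3, 0, i) (2, 0, i) := by
    intro i hi
    obtain ⟨p, hp, h⟩ := h (i / 4) (by omega)
    have : 4 * (i / 4) + p = pre^[0] (pre i) ∨ 4 * (i / 4) + p = pre^[1] (pre i) ∨
        4 * (i / 4) + p = pre^[2] (pre i) ∨ 4 * (i / 4) + p = pre^[3] (pre i) := by
      simp only [Function.iterate_succ, Function.iterate_zero, Function.comp, id]
      unfold pre; split_ifs <;> omega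
    rcases this with e | e | e | e <;> exact a1 _ i hi (e ▸ h)
  have b1 : ∀ q < m, ∀ i < m, R (0, q, i) (ent m q i (X q)) := by
    intro q hq i hi
    by_cases h : ρ i = q ∧ X q = ε i
    · exact (Relation.ReflTransGen.head ⟨by simp [Ord, hi, hq], by simp [gg, row, h.1, h.2]⟩
        (a2 i hi)).tail ⟨by simp [Ord, hi], by simp [gg, row, h.1, h.2]⟩
    · exact Relation.ReflTransGen.single ⟨by simp [Ord, hi, hq], by
        simp only [gg, row, if_true, Nat.zero_le, if_neg h]⟩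
  have b2 : ∀ q < m, ∀ i < m, R (0, q, i) (tt m q i) := by
    intro q hq i hi
    refine (b1 q hq i hi).tail ?_
    have : suc m (prv m i) = i := by unfold suc prv; split_ifs <;> omega
    have : prv m i < m := by unfold prv; split_ifs <;> omega
    cases h : X q <;> simp [Ord, ent, gg, row, *]
  have c1 : ∀ q < m, R (0, 0, 0) (0, q, 0) → ∀ i < m, R (0, 0, 0) (0, q, i) := by
    intro q hq h i
    induction i with
    | zero => exact fun _ => h
    | succ i ih =>
      intro hi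
      have := (ih (by omega)).trans (b2 q hq i (by omega))
      rwa [tt, if_pos hi] at this
  have c2 : ∀ q ≤ m, R (0, 0, 0) (0, q, 0) := by
    intro q
    induction q with
    | zero => exact fun _ => Relation.ReflTransGen.refl
    | succ q ih =>
      intro hq
      have := (c1 q hq (ih (by omega)) (m - 1) (by omega)).trans (b2 q hq _ (by omega))
      rwa [tt, if_neg (by omega)] at this
  have c3 : ∀ q < m, ∀ i < m, R (0, 0, 0) (0, q, i) := fun q hq => c1 q hq (c2 q hq.le)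
  have d1 : ∀ k, ∀ i < m, X (ρ (nxt^[k] i)) = ε (nxt^[k] i) → R (0, 0, 0) (3, 0, i) := by
    have d0 : ∀ i < m, X (ρ i) = ε i → R (0, 0, 0) (3, 0, i) := fun i hi h =>
      (c3 _ (hρ i hi) i hi).tail ⟨by simp [Ord, hi, hρ i hi], by simp [gg, row, h]⟩
    intro k
    induction k with
    | zero => exact d0
    | succ k ih =>
      intro i hi h
      by_cases h' : X (ρ i) = ε i
      · exact d0 i hi h'
      · exact (ih _ (nl i hi) h).tail ⟨by simp [Ord, nl i hi], by simp [gg, row, h', pn]⟩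
  have d2 : ∀ i < m, R (0, 0, 0) (3, 0, i) := by
    intro i hi
    obtain ⟨p, hp, h⟩ := h (i / 4) (by omega)
    have : 4 * (i / 4) + p = nxt^[0] i ∨ 4 * (i / 4) + p = nxt^[1] i ∨
        4 * (i / 4) + p = nxt^[2] i ∨ 4 * (i / 4) + p = nxt^[3] i := by
      simp only [Function.iterate_succ, Function.iterate_zero, Function.comp, id]
      unfold nxt; split_ifs <;> omega
    rcases this with e | e | e | e <;> exact d1 _ i hi (e ▸ h)
  rcases hx with rfl | hx
  · exact c2 m le_rfl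
  obtain ⟨k, q, i⟩ := x
  obtain ⟨hi, ⟨hk, hq⟩ | ⟨rfl | rfl, rfl⟩⟩ := hx
  · simp only at hi hk hq
    interval_cases k
    · exact c3 q hq i hi
    · cases h : X q
      · have := (c3 q hq i hi).trans (b1 q hq i hi)
        rwa [h] at this
      · have hs : suc m i < m := by unfold suc; split_ifs <;> omega
        have := (c3 q hq _ hs).trans (b1 q hq _ hs)
        have e : prv m (suc m i) = i := by
          unfold suc
          split_ifs
          · simp [prv]
          · simp only [prv, if_true]; omega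
        rwa [h, ent, cond_true, e] at this
  · exact (d2 i hi).trans (a2 i hi)
  · exact d2 i hi

theorem gad_iff (h0 : 0 < m) (h4 : m % 4 = 0) (hρ : ∀ i < m, ρ i < m) :
    Compressible ((gad m ρ ε).A.image (gad m ρ ε).pt) (2 * (gad m ρ ε).W.card - 2) ↔
      ∃ X : ℕ → Bool, ∀ c : Bool, Hit m ρ ε fun q => X q == c := by
  have G : (gad m ρ ε).Good := gad_good h0 h4 hρ
  refine ⟨fun h => gad_forward h4 hρ (G.forward h), fun ⟨X, hX⟩ => ?_⟩
  let s : Vx → Bool := fun x => if x = (0, m, 0) then true else X (row ρ x)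
  have hb : Ord m (0, 0, 0) := by simp [Ord, h0]
  have hl : (0, m, 0) ∈ (gad m ρ ε).W := List.mem_toFinset.2 (mem_Wl.2 (Or.inl rfl))
  have h1 : ∀ (c : Bool) (x : Vx), x = (0, m, 0) ∨ Ord m x → Relation.ReflTransGen
      (fun A B => A.1 ∈ (gad m ρ ε).W ∧ A.1 ≠ (gad m ρ ε).e ∧ (gad m ρ ε).nx s A = B)
      ((0, 0, 0), c) (x, c) := by
    intro c x hx
    refine Relation.ReflTransGen.lift (fun x => (x, c)) ?_ _ _ (reach h0 h4 hρ (hX c) x hx)
    rintro x y ⟨hx, rfl⟩
    exact ⟨hx.mem, hx.ne_e, by rw [nx_gad s hx]; simp only [s, if_neg hx.ne_last]⟩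
  have h2 := (h1 false _ (Or.inl rfl)).tail (c := ((0, 0, 0), true))
    ⟨hl, by simp [gad], by simp [Dat.nx, gad, s, gbe]⟩
  refine G.backward s (Y0 := ((0, 0, 0), false)) hb.mem fun ⟨x, c⟩ hx hx' => ?_
  rcases mem_Wl.1 (List.mem_toFinset.1 hx) with h | h | h
  · cases c
    exacts [h1 _ _ (Or.inl h), h2.trans (h1 _ _ (Or.inl h))]
  · cases h
    cases c
    · exact absurd rfl hx'
    · exact (h2.trans (h1 _ _ (Or.inl rfl))).tail ⟨hl, by simp [gad], by simp [Dat.nx, gad, s, gal]⟩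
  · cases c
    exacts [h1 _ _ (Or.inr h), h2.trans (h1 _ _ (Or.inr h))]

end Pool.Agent.MP_666b32_lc.H56
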