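import Pool.Agent.MP_666b32_lc.H56.Defs

set_option autoImplicit false

namespace Pool.Agent.MP_666b32_lc.H56

open Finset Polynomial Function

theorem extract {S : Finset ℚ} {K : ℕ} (hK : K + 3 = S.card) (h : Compressible S K) :
    ∃ z ∈ S, ∃ σ : ℚ → ℚ, ∃ r : ℚ → ℕ,
      (∀ y ∈ S.erase z, σ y ∈ S ∧ r (σ y) = r y + 1) ∧ Set.InjOn r S ∧
      (∃ y ∈ S.erase z, σ y = z) ∧
      ∑ y ∈ S.erase z, σ y / ∏ y' ∈ (S.erase z).erase y, (y - y') = 0 := by
  classical
  obtain ⟨f, hf, x₀, hx₀, h⟩ := h
  set orb : ℕ → ℝ := fun i => (fun t : ℝ => f.eval t)^[i] (x₀ : ℝ) with horb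
  have h' : S.image (fun q : ℚ => (q : ℝ)) = (range S.card).image orb := by
    apply Finset.coe_injective
    rw [coe_image, coe_image, h, coe_range]; rfl
  have hinj : Set.InjOn orb (range S.card : Finset ℕ) := by
    rw [← card_image_iff, ← h', card_image_of_injective _ Rat.cast_injective, card_range]
  have h1 : ∀ y ∈ S, ∃ i < S.card, orb i = y := by
    intro y hy
    have : (y : ℝ) ∈ (range S.card).image orb := h' ▸ mem_image_of_mem _ hy
    simpa using this
  have h2 : ∀ i < S.card, ∃ y ∈ S, (y : ℝ) = orb i := by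
    intro i hi
    have : orb i ∈ S.image (fun q : ℚ => (q : ℝ)) := h' ▸ mem_image_of_mem _ (mem_range.2 hi)
    simpa using this
  choose! r hr1 hr2 using h1
  choose! p hp1 hp2 using h2
  have hrp : ∀ i < S.card, r (p i) = i := fun i hi =>
    hinj (by simpa using hr1 _ (hp1 i hi)) (by simpa using hi) (by rw [hr2 _ (hp1 i hi), hp2 i hi])
  have hpr : ∀ y ∈ S, p (r y) = y := fun y hy =>
    Rat.cast_injective (α := ℝ) (by rw [hp2 _ (hr1 y hy), hr2 y hy])
  have hlt : ∀ y ∈ S.erase (p (K + 2)), r y + 1 < S.card := by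
    intro y hy
    obtain ⟨hy1, hy2⟩ := mem_erase.1 hy
    have := hr1 y hy2
    have : r y ≠ K + 2 := fun e => hy1 (by rw [← e, hpr y hy2])
    omega
  refine ⟨p (K + 2), hp1 _ (by omega), fun y => p (r y + 1), r, fun y hy =>
    ⟨hp1 _ (hlt y hy), hrp _ (hlt y hy)⟩, fun a ha b hb e => ?_, ⟨p (K + 1), ?_, ?_⟩, ?_⟩
  · rw [← hpr a ha, ← hpr b hb, e]
  · refine mem_erase.2 ⟨fun e => ?_, hp1 _ (by omega)⟩
    have := congrArg r e
    rw [hrp _ (by omega), hrp _ (by omega)] at this
    omega
  · simp only; rw [hrp _ (by omega)]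
  · have hc : (S.erase (p (K + 2))).card = K + 2 := by
      rw [card_erase_of_mem (hp1 _ (by omega))]; omega
    have := Lagrange.coeff_eq_sum (s := S.erase (p (K + 2))) (v := fun q : ℚ => (q : ℝ))
      (Rat.cast_injective.injOn) (P := f) (by
        rw [hc]; exact hf.trans_lt (by exact_mod_cast (by omega : K < K + 2)))
    rw [hc, coeff_eq_zero_of_degree_lt (hf.trans_lt (by exact_mod_cast (by omega : K < K + 2 - 1)))]
      at this
    apply Rat.cast_injective (α := ℝ)
    push_cast
    rw [this]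
    refine sum_congr rfl fun y hy => ?_
    rw [hp2 _ (hlt y hy), horb]
    simp only
    rw [iterate_succ_apply']
    congr 2
    exact hr2 y (mem_of_mem_erase hy)

theorem orbit_image {X : Type*} [DecidableEq X] (S : Finset X) (g : X → X) (x : X) (hx : x ∈ S)
    (hg : ∀ y ∈ S, g y ∈ S) (h : ∀ y ∈ S, ∃ i, g^[i] x = y) :
    (range S.card).image (fun i => g^[i] x) = S := by
  have hm : ∀ i, g^[i] x ∈ S := by
    intro i
    induction i with
    | zero => exact hx
    | succ i ih => rw [iterate_succ_apply']; exact hg _ ih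
  obtain ⟨i, j, hij, hj, e⟩ : ∃ i j, i < j ∧ j ≤ S.card ∧ g^[i] x = g^[j] x := by
    obtain ⟨i, hi, j, hj, hne, e⟩ := exists_ne_map_eq_of_card_lt_of_maps_to
      (s := range (S.card + 1)) (t := S) (by simp) (f := fun i => g^[i] x) (fun i _ => hm i)
    rcases lt_or_gt_of_ne hne with h | h
    · exact ⟨i, j, h, by simpa [Nat.lt_succ_iff] using hj, e⟩
    · exact ⟨j, i, h, by simpa [Nat.lt_succ_iff] using hi, e.symm⟩
  refine Subset.antisymm (fun y hy => ?_) (fun y hy => ?_)
  · obtain ⟨k, -, rfl⟩ := mem_image.1 hy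
    exact hm k
  · obtain ⟨k, rfl⟩ := h y hy
    clear hy
    induction k using Nat.strong_induction_on with
    | _ k ih =>
      by_cases hk : k < S.card
      · exact mem_image_of_mem _ (mem_range.2 hk)
      · have : g^[k] x = g^[k - j + i] x := by
          rw [iterate_add_apply, e, ← iterate_add_apply]; congr 1; omega
        rw [this]
        exact ih _ (by omega)

theorem build {S : Finset ℚ} {K : ℕ} (hK : K + 3 = S.card) {z x : ℚ} (hz : z ∈ S) (hx : x ∈ S)
    (σ : ℚ → ℚ) (hσ : ∀ y ∈ S.erase z, σ y ∈ S)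
    (hr : ∀ y ∈ S, Relation.ReflTransGen (fun a b => a ∈ S.erase z ∧ σ a = b) x y)
    (hs : ∑ y ∈ S.erase z, σ y / ∏ y' ∈ (S.erase z).erase y, (y - y') = 0) :
    Compressible S K := by
  classical
  have hc : (S.erase z).card = K + 2 := by rw [card_erase_of_mem hz]; omega
  have hv : Set.InjOn (fun q : ℚ => (q : ℝ)) (S.erase z : Finset ℚ) := Rat.cast_injective.injOn
  let f : ℝ[X] := Lagrange.interpolate (S.erase z) (fun q : ℚ => (q : ℝ)) (fun q => (σ q : ℝ))
  have hf1 : f.degree < (S.erase z).card := Lagrange.degree_interpolate_lt _ hv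
  have hf2 : ∀ y ∈ S.erase z, f.eval (y : ℝ) = σ y := fun y hy =>
    Lagrange.eval_interpolate_at_node _ hv hy
  have hf3 : f.coeff (K + 1) = 0 := by
    have := Lagrange.coeff_eq_sum hv hf1
    rw [hc] at this
    refine this.trans ?_
    have h2 := congrArg (fun q : ℚ => (q : ℝ)) hs
    push_cast at h2
    rw [← h2]
    exact sum_congr rfl fun y hy => by rw [hf2 y hy]
  have hf4 : f.degree ≤ K := by
    rw [hc] at hf1
    rw [degree_le_iff_coeff_zero]
    intro m hm
    have hm' : K < m := by exact_mod_cast hm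
    rcases Nat.lt_or_ge (K + 1) m with h | h
    · exact coeff_eq_zero_of_degree_lt (hf1.trans_le (by exact_mod_cast h))
    · rw [show m = K + 1 by omega, hf3]
  let g : ℚ → ℚ := fun y => if y = z then z else σ y
  have hg : ∀ y ∈ S, g y ∈ S := by
    intro y hy
    by_cases h : y = z
    · simp [g, h, hz]
    · simpa [g, h] using hσ y (mem_erase.2 ⟨h, hy⟩)
  have himg := orbit_image S g x hx hg (fun y hy => by
    have := hr y hy
    clear hy
    induction this with
    | refl => exact ⟨0, rfl⟩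
    | tail _ h ih =>
      obtain ⟨i, rfl⟩ := ih
      refine ⟨i + 1, ?_⟩
      rw [iterate_succ_apply', ← h.2]
      simp [g, (mem_erase.1 h.1).1])
  have hinj : Set.InjOn (fun i => g^[i] x) (range S.card : Finset ℕ) := by
    rw [← card_image_iff, himg, card_range]
  have hm : ∀ i < S.card, g^[i] x ∈ S := fun i hi =>
    himg ▸ mem_image_of_mem _ (mem_range.2 hi)
  have key : ∀ i < S.card, (fun t : ℝ => f.eval t)^[i] (x : ℝ) = (g^[i] x : ℚ) := by
    intro i
    induction i with
    | zero => intro _; rfl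
    | succ i ih =>
      intro hi
      have hne : g^[i] x ≠ z := by
        intro e
        have : g^[i + 1] x = g^[i] x := by rw [iterate_succ_apply', e]; simp [g]
        have := hinj (by simpa using hi) (by simp; omega) this
        omega
      rw [iterate_succ_apply', iterate_succ_apply', ih (by omega),
        hf2 _ (mem_erase.2 ⟨hne, hm i (by omega)⟩)]
      simp [g, hne]
  refine ⟨f, hf4, x, hx, ?_⟩
  ext t
  simp only [Set.mem_image, Set.mem_setOf_eq, mem_coe]
  constructor
  · rintro ⟨y, hy, rfl⟩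
    rw [← himg] at hy
    obtain ⟨i, hi, rfl⟩ := mem_image.1 hy
    exact ⟨i, mem_range.1 hi, key i (mem_range.1 hi)⟩
  · rintro ⟨i, hi, rfl⟩
    exact ⟨_, hm i hi, (key i hi).symm⟩

end Pool.Agent.MP_666b32_lc.H56
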