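import Pool.Agent.MP_666b32_lc.H56.Gad
import Pool.Agent.Shared.H27.CookLevin
import Pool.Agent.Shared.H56.More

set_option autoImplicit false

namespace Pool.Agent.MP_666b32_lc.H56

open Pool.Agent.Shared.H56 Pool.Agent.Shared.H27

def lit (ψ : CNF) (i : ℕ) : ℕ × Bool :=
  if i % 4 = 3 then (0, true)
  else (((ψ.getD (i / 4) []).getD (i % 4) (0, true)).1 + 1,
    ((ψ.getD (i / 4) []).getD (i % 4) (0, true)).2)
def vars (ψ : CNF) : List ℕ := (List.range (4 * ψ.length)).map fun i => (lit ψ i).1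
def rho (ψ : CNF) (i : ℕ) : ℕ := (vars ψ).idxOf (lit ψ i).1
def eps (ψ : CNF) (i : ℕ) : Bool := (lit ψ i).2

theorem rho_lt (ψ : CNF) : ∀ i < 4 * ψ.length, rho ψ i < 4 * ψ.length := by
  intro i hi
  have : (lit ψ i).1 ∈ vars ψ := List.mem_map.2 ⟨i, List.mem_range.2 hi, rfl⟩
  simpa [rho, vars] using List.idxOf_lt_length_iff.2 this

theorem lit3 (ψ : CNF) (j : ℕ) : lit ψ (4 * j + 3) = (0, true) := by
  rw [lit, if_pos (by omega)]

theorem lit_lt {ψ : CNF} {j p : ℕ} (hj : j < ψ.length) (hp : p < 3) (hp' : p < ψ[j].length) :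
    lit ψ (4 * j + p) = (ψ[j][p].1 + 1, ψ[j][p].2) := by
  rw [lit, if_neg (by omega), show (4 * j + p) / 4 = j by omega, show (4 * j + p) % 4 = p by omega,
    List.getD_eq_getElem _ _ hj, List.getD_eq_getElem _ _ hp']

theorem hit_iff {ψ : CNF} (h3 : ∀ c ∈ ψ, c.length = 3) :
    (∃ X : ℕ → Bool, ∀ c : Bool, Hit (4 * ψ.length) (rho ψ) (eps ψ) fun q => X q == c) ↔ Sat ψ := by
  constructor
  · rintro ⟨X, hX⟩
    refine ⟨fun k => X ((vars ψ).idxOf (k + 1)) == !X ((vars ψ).idxOf 0), fun c hc => ?_⟩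
    obtain ⟨j, hj, rfl⟩ := List.getElem_of_mem hc
    obtain ⟨p, hp, h⟩ := hX (!X ((vars ψ).idxOf 0)) j (by omega)
    by_cases h' : p = 3
    · subst h'
      simp [rho, eps, lit3] at h
    · have hp' : p < ψ[j].length := by rw [h3 _ hc]; omega
      simp only [rho, eps, lit_lt hj (by omega) hp'] at h
      exact ⟨_, List.getElem_mem hp', h⟩
  · rintro ⟨ν, hν⟩
    let ν' : ℕ → Bool := fun k => if k = 0 then false else ν (k - 1)
    have e : ∀ i < 4 * ψ.length, (vars ψ).getD (rho ψ i) 0 = (lit ψ i).1 := by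
      intro i hi
      have : (lit ψ i).1 ∈ vars ψ := List.mem_map.2 ⟨i, List.mem_range.2 hi, rfl⟩
      rw [rho, List.getD_eq_getElem _ _ (List.idxOf_lt_length_iff.2 this), List.getElem_idxOf]
    refine ⟨fun q => ν' ((vars ψ).getD q 0), fun c j hj => ?_⟩
    have hj' : j < ψ.length := by omega
    cases c
    · refine ⟨3, by omega, ?_⟩
      simp only [e _ (show 4 * j + 3 < 4 * ψ.length by omega), eps, lit3]
      rfl
    · obtain ⟨l, hl, h⟩ := hν _ (List.getElem_mem hj')
      obtain ⟨p, hp, rfl⟩ := List.getElem_of_mem hl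
      have hp' : p < 3 := by rwa [h3 _ (List.getElem_mem hj')] at hp
      refine ⟨p, by omega, ?_⟩
      simp only [e _ (show 4 * j + p < 4 * ψ.length by omega), eps, lit_lt hj' hp' hp]
      simpa [ν'] using h

section Out

variable {V : Type} [DecidableEq V]

def valL (l : List V) (Y : V × Bool) : ℤ := sg Y.2 * wt l Y.1
def dPL (l : List V) (Y : V × Bool) : ℤ :=
  (((sl l).filter fun Z => Z ≠ Y).map fun Z => valL l Y - valL l Z).prod
def ellL (l : List V) (e : V) (al be : V → V × Bool) : ℚ :=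
  -(wt l e : ℚ) + ((l.filter fun x => x ≠ e).map fun x =>
    ((dPL l (e, true) * (valL l (al x) - valL l (be x)) : ℤ) : ℚ) / (dPL l (x, true) : ℤ)).sum
def outL (l : List V) (e : V) (al be : V → V × Bool) : List ℚ :=
  ellL l e al be :: (sl l).map fun Y => (valL l Y : ℚ)

theorem toFinset_filter_ne {α : Type} [DecidableEq α] (l : List α) (a : α) :
    (l.filter fun x => x ≠ a).toFinset = l.toFinset.erase a := by
  ext x; simp [and_comm]

theorem outL_spec {D : Dat V} {l : List V} (hl : l.Nodup) (hW : D.W = l.toFinset) (hw : D.w = wt l)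
    (G : D.Good) : (outL l D.e D.al D.be).Nodup ∧ (outL l D.e D.al D.be).length = 2 * l.length + 1 ∧
      (outL l D.e D.al D.be).toFinset = D.A.image D.pt := by
  have hs : (sl l).Nodup := hl.product (by simp)
  have hS : D.SS = (sl l).toFinset := by ext Y; simp [hW]
  have hv : D.val = valL l := by funext Y; simp [Dat.val, valL, hw]
  have hd : D.dP = dPL l := by
    funext Y
    rw [Dat.dP, dPL, ← List.prod_toFinset _ (hs.filter _), toFinset_filter_ne, hS, hv]
  have he : D.ell = ellL l D.e D.al D.be := by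
    rw [Dat.ell, ellL, ← List.sum_toFinset _ (hl.filter _), toFinset_filter_ne, hW, hw, hd]
    simp only [Dat.dd, hv]
  have h1 : outL l D.e D.al D.be = (none :: (sl l).map some).map D.pt := by
    simp [outL, Dat.pt, he, hv]
  have h2 : (none :: (sl l).map some).toFinset = D.A := by
    ext (_ | Y) <;> simp [hW]
  refine ⟨?_, ?_, ?_⟩
  · rw [h1]
    refine List.Nodup.map_on (fun x hx y hy => G.pt_inj ?_ ?_)
      (List.nodup_cons.2 ⟨by simp, hs.map (Option.some_injective _)⟩)
    · exact h2 ▸ List.mem_toFinset.2 hx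
    · exact h2 ▸ List.mem_toFinset.2 hy
  · simp [outL, sl, List.length_product, mul_comm]
  · rw [h1, ← h2]
    ext q
    simp only [List.mem_toFinset, List.mem_map, Finset.mem_image]

end Out

def red (ψ : CNF) : List ℚ × ℕ :=
  (outL (Wl (4 * ψ.length)) (4, 0, 0) (gal (4 * ψ.length) (rho ψ) (eps ψ))
    (gbe (4 * ψ.length) (rho ψ) (eps ψ)), 2 * (Wl (4 * ψ.length)).length - 2)

theorem red_spec {ψ : CNF} (h0 : ψ ≠ []) (h3 : ∀ c ∈ ψ, c.length = 3) :
    (red ψ).1.Nodup ∧ (red ψ).2 + 3 = (red ψ).1.length ∧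
      (Sat ψ ↔ Compressible (red ψ).1.toFinset (red ψ).2) := by
  have hp : 0 < 4 * ψ.length := by have := List.length_pos_iff.2 h0; omega
  have G : (gad (4 * ψ.length) (rho ψ) (eps ψ)).Good := gad_good hp (by omega) (rho_lt ψ)
  obtain ⟨h1, h2, h4⟩ := outL_spec (D := gad (4 * ψ.length) (rho ψ) (eps ψ))
    (l := Wl (4 * ψ.length)) (nodup_Wl _) rfl rfl G
  refine ⟨h1, ?_, ?_⟩
  · have : 2 ≤ (Wl (4 * ψ.length)).length := by simp [Wl]
    exact Eq.trans (by simp only [red]; omega) h2.symm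
  · rw [← hit_iff h3, ← gad_iff hp (by omega) (rho_lt ψ), ← h4,
      show (gad (4 * ψ.length) (rho ψ) (eps ψ)).W.card = (Wl (4 * ψ.length)).length from
        List.toFinset_card_of_nodup (nodup_Wl _)]
    rfl

section PolyTime

variable {α V : Type} [N487b59b3 α] [N487b59b3 V] [DecidableEq V]

@[fun_prop] theorem pt_ratSum {l : α → List ℚ} (hl : PT l) : PT (fun a => (l a).sum) := by
  have h : PT fun a => ((((l a).map fun q : ℚ =>
      (q * (((l a).map fun q => q.den).prod : ℕ)).num).sum : ℤ) : ℚ) /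
      (((l a).map fun q => q.den).prod : ℕ) := by fun_prop
  refine h.congr fun a => ?_
  generalize l a = t
  have h1 : (((t.map fun q => q.den).prod : ℕ) : ℚ) ≠ 0 :=
    Nat.cast_ne_zero.2 (List.prod_ne_zero (by simp [Rat.den_ne_zero]))
  have h2 : ∀ q ∈ t, q.den ∣ (t.map fun q => q.den).prod := fun q hq =>
    List.dvd_prod (List.mem_map.2 ⟨q, hq, rfl⟩)
  generalize (t.map fun q => q.den).prod = d at h1 h2
  have h3 := List.sum_map_mul_right t id (d : ℚ)
  rw [List.map_id] at h3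
  rw [div_eq_iff h1, Int.cast_list_sum, List.map_map, ← h3]
  refine congrArg _ (List.map_congr_left fun q hq => ?_)
  obtain ⟨k, rfl⟩ := h2 q hq
  have : q * ((q.den * k : ℕ) : ℚ) = ((q.num * k : ℤ) : ℚ) := by
    push_cast; rw [← mul_assoc, Rat.mul_den_eq_num]
  simp only [Function.comp, id, this, Rat.num_intCast]

@[fun_prop] theorem pt_sg {b : α → Bool} (hb : PT b) : PT (fun a => sg (b a)) := by
  unfold sg; fun_prop

@[fun_prop] theorem pt_av {l : α → List V} {v : α → V} (hl : PT l) (hv : PT v) :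
    PT (fun a => av (l a) (v a)) := by
  unfold av; fun_prop

@[fun_prop] theorem pt_dq {l : α → List V} {v : α → V} {Y Z : α → V × Bool} (hl : PT l) (hv : PT v)
    (hY : PT Y) (hZ : PT Z) : PT (fun a => dq (l a) (v a) (Y a) (Z a)) := by
  unfold dq; fun_prop

omit [DecidableEq V] in
@[fun_prop] theorem pt_sl {l : α → List V} (hl : PT l) : PT (fun a => sl (l a)) := by
  unfold sl; fun_prop

@[fun_prop] theorem pt_MM {l : α → List V} (hl : PT l) : PT (fun a => MM (l a)) := by
  unfold MM; fun_prop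

@[fun_prop] theorem pt_wt {l : α → List V} {v : α → V} (hl : PT l) (hv : PT v) :
    PT (fun a => wt (l a) (v a)) := by
  unfold wt; fun_prop

@[fun_prop] theorem pt_valL {l : α → List V} {v : α → V × Bool} (hl : PT l) (hv : PT v) :
    PT (fun a => valL (l a) (v a)) := by
  unfold valL; fun_prop

@[fun_prop] theorem pt_dPL {l : α → List V} {v : α → V × Bool} (hl : PT l) (hv : PT v) :
    PT (fun a => dPL (l a) (v a)) := by
  unfold dPL; fun_prop

theorem pt_outL {l : α → List V} (e : V) {al be : α → V → V × Bool} (hl : PT l)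
    (hal : PT fun p : α × V => al p.1 p.2) (hbe : PT fun p : α × V => be p.1 p.2) :
    PT (fun a => outL (l a) e (al a) (be a)) := by
  unfold outL ellL; fun_prop

@[fun_prop] theorem pt_lit {ψ : α → CNF} {i : α → ℕ} (h : PT ψ) (hi : PT i) :
    PT (fun a => lit (ψ a) (i a)) := by
  unfold lit; fun_prop

@[fun_prop] theorem pt_rho {ψ : α → CNF} {i : α → ℕ} (h : PT ψ) (hi : PT i) :
    PT (fun a => rho (ψ a) (i a)) := by
  unfold rho vars; fun_prop

@[fun_prop] theorem pt_eps {ψ : α → CNF} {i : α → ℕ} (h : PT ψ) (hi : PT i) :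
    PT (fun a => eps (ψ a) (i a)) := by
  unfold eps; fun_prop

@[fun_prop] theorem pt_gg {ψ : α → CNF} {m : α → ℕ} {x : α → Vx} (b : Bool) (h : PT ψ) (hm : PT m)
    (hx : PT x) : PT (fun a => gg (m a) (rho (ψ a)) (eps (ψ a)) (x a) b) := by
  unfold gg ent tt suc prv nxt pre; fun_prop

theorem pt_Wl {m : α → ℕ} (hm : PT fun a => un (m a)) : PT (fun a => Wl (m a)) := by
  have := hm.of_un
  unfold Wl Ord; fun_prop

theorem pt_red : PT red := by
  have h := pt_Wl (m := fun ψ : CNF => 4 * ψ.length) (by fun_prop)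
  refine PT.prodMk (pt_outL _ h ?_ ?_) (by fun_prop)
  · unfold gal; fun_prop
  · unfold gbe; fun_prop

end PolyTime

theorem np_hard (L : N68a2faeb.DecisionProblem) (hL : L ∈ N68a2faeb.NP) :
    ∃ f : List Bool → List ℚ × ℕ, N68a2faeb.IsPolyTime f ∧ ∀ x, (f x).1.Nodup ∧
      (f x).2 + 3 = (f x).1.length ∧ (L x = true ↔ Compressible (f x).1.toFinset (f x).2) := by
  obtain ⟨f, hf, h3, h⟩ := cookLevin3 L hL
  refine ⟨fun x => red ([(0, true), (0, false), (0, true)] :: f x),
    (pt_red.comp (by fun_prop)).isPolyTime, fun x => ?_⟩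
  obtain ⟨h1, h2, h4⟩ := red_spec (ψ := [(0, true), (0, false), (0, true)] :: f x) (by simp) (by
    intro c hc
    rcases List.mem_cons.1 hc with rfl | hc
    exacts [rfl, h3 x c hc])
  refine ⟨h1, h2, (h x).trans (Iff.trans ⟨fun ⟨ν, hν⟩ => ⟨ν, fun c hc => ?_⟩,
    fun ⟨ν, hν⟩ => ⟨ν, fun c hc => hν c (List.mem_cons_of_mem _ hc)⟩⟩ h4)⟩
  rcases List.mem_cons.1 hc with rfl | hc
  · cases h : ν 0 <;> simp [h]
  · exact hν c hc

end Pool.Agent.MP_666b32_lc.H56
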