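import Pool.Agent.MP_666b32_lc.H56.Fwd

set_option autoImplicit false

namespace Pool.Agent.MP_666b32_lc.H56

open Finset

theorem digits_zero : ∀ (n : ℕ) (c : ℕ → ℤ), (∀ i, |c i| < 16) →
    ∑ i ∈ range n, c i * 16 ^ i = 0 → ∀ i < n, c i = 0 := by
  intro n
  induction n with
  | zero => intro c _ _ i hi; omega
  | succ n ih =>
    intro c hc h i hi
    rw [sum_range_succ'] at h
    have e : ∑ i ∈ range n, c (i + 1) * 16 ^ (i + 1) = 16 * ∑ i ∈ range n, c (i + 1) * 16 ^ i := by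
      rw [mul_sum]; exact sum_congr rfl fun i _ => by ring
    rw [e] at h
    have h0 := hc 0
    rw [abs_lt] at h0
    have h1 : c 0 = 0 := by omega
    rcases i with _ | i
    · exact h1
    · exact ih (fun i => c (i + 1)) (fun i => hc _) (by omega) i (by omega)

theorem five_zero {n : ℕ} {c0 c1 c2 c3 c4 : ℤ} {i0 i1 i2 i3 i4 : ℕ} (h0 : i0 < n) (h1 : i1 < n)
    (h2 : i2 < n) (h3 : i3 < n) (h4 : i4 < n) (hc : |c0| + |c1| + |c2| + |c3| + |c4| < 16)
    (h : c0 * 16 ^ i0 + c1 * 16 ^ i1 + c2 * 16 ^ i2 + c3 * 16 ^ i3 + c4 * 16 ^ i4 = 0) (j : ℕ) :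
    (if i0 = j then c0 else 0) + (if i1 = j then c1 else 0) + (if i2 = j then c2 else 0) +
      (if i3 = j then c3 else 0) + (if i4 = j then c4 else 0) = 0 := by
  by_cases hj : j < n
  · refine digits_zero n (fun j => (if i0 = j then c0 else 0) + (if i1 = j then c1 else 0) +
      (if i2 = j then c2 else 0) + (if i3 = j then c3 else 0) + (if i4 = j then c4 else 0))
      (fun j => ?_) ?_ j hj
    · have k : ∀ (p : Prop) [Decidable p] (c : ℤ), |if p then c else 0| ≤ |c| := by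
        intro p _ c; split_ifs <;> simp
      have := k (i0 = j) c0; have := k (i1 = j) c1; have := k (i2 = j) c2
      have := k (i3 = j) c3; have := k (i4 = j) c4
      refine lt_of_le_of_lt ((abs_add_le _ _).trans (add_le_add ((abs_add_le _ _).trans (add_le_add
        ((abs_add_le _ _).trans (add_le_add (abs_add_le _ _) le_rfl)) le_rfl)) le_rfl)) ?_
      omega
    · simp only [add_mul, sum_add_distrib, ite_mul, zero_mul, sum_ite_eq, mem_range, h0, h1, h2, h3,
        h4, if_true]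
      exact h
  · rw [if_neg (by omega), if_neg (by omega), if_neg (by omega), if_neg (by omega),
      if_neg (by omega)]
    simp

variable {V : Type} [DecidableEq V]

def av (l : List V) (v : V) : ℤ := 16 ^ l.idxOf v
def dq (l : List V) (x : V) (Y Z : V × Bool) : ℤ :=
  sg Y.2 * (av l x - av l Y.1) - sg Z.2 * (av l x - av l Z.1)
def sl (l : List V) : List (V × Bool) := l ×ˢ [true, false]
def MM (l : List V) : ℕ := 16 ^ (l.length + 1) * ((l ×ˢ sl l ×ˢ sl l).map fun p =>
  if dq l p.1 p.2.1 p.2.2 = 0 then 1 else (dq l p.1 p.2.1 p.2.2).natAbs).prod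
def wt (l : List V) (v : V) : ℕ := 1 + 16 ^ l.idxOf v * MM l

omit [DecidableEq V] in
@[simp] theorem mem_sl {l : List V} {Y : V × Bool} : Y ∈ sl l ↔ Y.1 ∈ l := by
  obtain ⟨y, b⟩ := Y
  cases b <;> simp [sl]

theorem MM_ge (l : List V) : 16 ^ (l.length + 1) ≤ MM l := by
  refine Nat.le_mul_of_pos_right _ (List.prod_pos fun a ha => ?_)
  obtain ⟨p, -, rfl⟩ := List.mem_map.1 ha
  split_ifs with h
  · exact one_pos
  · exact Int.natAbs_pos.2 h

theorem wt_gt (l : List V) (v : V) : 16 ^ (l.length + 1) < wt l v := by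
  have := MM_ge l
  have h : MM l ≤ 16 ^ l.idxOf v * MM l := Nat.le_mul_of_pos_left _ (by positivity)
  unfold wt; omega

theorem unit_of_dvd (l : List V) (x : V) {d : ℕ} (h : d ∣ MM l) : IsUnit (d : ZMod (wt l x)) := by
  obtain ⟨k, hk⟩ := h
  have : ((wt l x : ℕ) : ZMod (wt l x)) = 0 := ZMod.natCast_self _
  rw [show ((wt l x : ℕ) : ZMod (wt l x)) = ((1 + 16 ^ l.idxOf x * (d * k) : ℕ) : ZMod (wt l x)) by
    rw [← hk]; rfl] at this
  push_cast at this
  exact IsUnit.of_mul_eq_one (-(16 ^ l.idxOf x * k)) (by linear_combination -this)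

theorem av_mul_wt (l : List V) (x y : V) :
    ((av l x * wt l y : ℤ) : ZMod (wt l x)) = ((av l x - av l y : ℤ) : ZMod (wt l x)) := by
  have : av l x * wt l y = av l x - av l y + av l y * wt l x := by
    simp only [av, wt]; push_cast; ring
  rw [this]; push_cast; simp

theorem abs_sg (b : Bool) : |sg b| = 1 := by cases b <;> rfl

theorem av_bd {l : List V} {x : V} (hx : x ∈ l) : 0 < av l x ∧ av l x ≤ 16 ^ l.length :=
  ⟨by unfold av; positivity, pow_le_pow_right₀ (by norm_num) List.idxOf_le_length⟩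

theorem eq_zero_of_small {l : List V} {x : V} {z : ℤ} (h : (z : ZMod (wt l x)) = 0)
    (hz : |z| ≤ 16 * 16 ^ l.length) : z = 0 := by
  rw [ZMod.intCast_zmod_eq_zero_iff_dvd] at h
  refine Int.eq_zero_of_abs_lt_dvd h (lt_of_le_of_lt hz ?_)
  have := wt_gt l x
  rw [pow_succ'] at this
  exact_mod_cast this

theorem comb_zero {l : List V} {x : V} (hx : x ∈ l) {Y Z A B : V × Bool} (hY : Y.1 ∈ l)
    (hZ : Z.1 ∈ l) (hA : A.1 ∈ l) (hB : B.1 ∈ l) {k : ℤ} (hk : |k| ≤ 2)
    (h : ((sg Y.2 * wt l Y.1 - sg Z.2 * wt l Z.1 - k * (sg A.2 * wt l A.1 - sg B.2 * wt l B.1) : ℤ) :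
      ZMod (wt l x)) = 0) {j : V} (hj : j ∈ l) (hjx : j ≠ x) :
    (if Y.1 = j then -sg Y.2 else 0) + (if Z.1 = j then sg Z.2 else 0) +
      (if A.1 = j then k * sg A.2 else 0) + (if B.1 = j then -(k * sg B.2) else 0) = 0 := by
  have h1 : ((dq l x Y Z - k * dq l x A B : ℤ) : ZMod (wt l x)) = 0 := by
    have e1 := av_mul_wt l x Y.1
    have e2 := av_mul_wt l x Z.1
    have e3 := av_mul_wt l x A.1
    have e4 := av_mul_wt l x B.1
    unfold dq
    push_cast at e1 e2 e3 e4 h ⊢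
    linear_combination (av l x : ZMod (wt l x)) * h - sg Y.2 * e1 + sg Z.2 * e2 + k * sg A.2 * e3 -
      k * sg B.2 * e4
  have b0 := av_bd hx
  have b : ∀ Y Z : V × Bool, Y.1 ∈ l → Z.1 ∈ l → |dq l x Y Z| ≤ 2 * 16 ^ l.length := by
    intro Y Z hY hZ
    have b1 := av_bd hY
    have b2 := av_bd hZ
    unfold dq
    rw [abs_le]
    rcases Y with ⟨y, _ | _⟩ <;> rcases Z with ⟨z, _ | _⟩ <;>
      simp only [sg_true, sg_false] at b1 b2 ⊢ <;> omega
  have h2 := eq_zero_of_small h1 (by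
    refine (abs_sub _ _).trans ?_
    rw [abs_mul]
    have := b Y Z hY hZ
    have := b A B hA hB
    have := mul_le_mul hk this (abs_nonneg _) (by norm_num)
    have : (0 : ℤ) < 16 ^ l.length := by positivity
    omega)
  have hi : ∀ {y : V}, y ∈ l → l.idxOf y < l.length := fun hy => List.idxOf_lt_length_iff.2 hy
  have h3 := five_zero (c0 := sg Y.2 - sg Z.2 - k * sg A.2 + k * sg B.2) (c1 := -sg Y.2)
    (c2 := sg Z.2) (c3 := k * sg A.2) (c4 := -(k * sg B.2)) (hi hx) (hi hY) (hi hZ) (hi hA) (hi hB)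
    (by
      have : |sg Y.2 - sg Z.2 - k * sg A.2 + k * sg B.2| ≤ 6 := by
        rw [abs_le] at hk ⊢
        cases Y.2 <;> cases Z.2 <;> cases A.2 <;> cases B.2 <;> simp only [sg_true, sg_false] <;> omega
      simp only [abs_neg, abs_mul, abs_sg]; omega)
    (by simp only [dq, av] at h2; linear_combination h2) (l.idxOf j)
  have e : ∀ {y : V}, y ∈ l → (l.idxOf y = l.idxOf j ↔ y = j) := fun hy => List.idxOf_inj hy
  simp only [e hx, e hY, e hZ, e hA, e hB, if_neg hjx.symm, zero_add] at h3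
  exact h3

theorem comb1 {Y Z : V × Bool} {j : V} (h1 : Y.1 = j)
    (h : (if Y.1 = j then -sg Y.2 else 0) + (if Z.1 = j then sg Z.2 else 0) = 0) : Y = Z := by
  obtain ⟨y, b⟩ := Y
  obtain ⟨z, c⟩ := Z
  cases h1
  by_cases k : z = y
  · subst k; cases b <;> cases c <;> simp at h ⊢
  · cases b <;> simp [k] at h

theorem comb2 {Y Z A B : V × Bool} (hAB : A ≠ B) {k : ℤ} (hk : k = 1 ∨ k = 2)
    (h : ∀ j, j = A.1 ∨ j = B.1 → (if Y.1 = j then -sg Y.2 else 0) + (if Z.1 = j then sg Z.2 else 0) +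
      (if A.1 = j then k * sg A.2 else 0) + (if B.1 = j then -(k * sg B.2) else 0) = 0) :
    k = 1 ∧ ((Y = A ∧ Z = B) ∨ (Y = ng B ∧ Z = ng A)) := by
  have h2 := h _ (Or.inl rfl)
  have h3 := h _ (Or.inr rfl)
  clear h
  obtain ⟨y, b⟩ := Y
  obtain ⟨z, c⟩ := Z
  obtain ⟨a, b'⟩ := A
  obtain ⟨a', c'⟩ := B
  simp only [ng, Prod.mk.injEq, if_true, ne_eq] at h2 h3 hAB ⊢
  by_cases k1 : a = a'
  · subst k1
    by_cases k2 : y = a <;> by_cases k3 : z = a <;> simp only [k2, k3, if_true, if_false] at h2 ⊢ <;>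
      cases b <;> cases c <;> cases b' <;> cases c' <;> simp at h2 hAB ⊢ <;> omega
  · have k1' : ¬ a' = a := fun h => k1 h.symm
    by_cases k2 : y = a
    · subst k2
      by_cases k3 : z = a'
      · subst k3
        simp only [k1, k1', if_true, if_false] at h2 h3 ⊢
        cases b <;> cases c <;> cases b' <;> cases c' <;> simp at h2 h3 ⊢ <;> omega
      · simp only [k1, k3, if_false] at h3
        cases c' <;> simp at h3 <;> omega
    · by_cases k3 : z = a
      · subst k3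
        by_cases k4 : y = a'
        · subst k4
          simp only [k1, k1', if_true, if_false] at h2 h3 ⊢
          cases b <;> cases c <;> cases b' <;> cases c' <;> simp at h2 h3 ⊢ <;> omega
        · simp only [k1, k4, if_false] at h3
          cases c' <;> simp at h3 <;> omega
      · simp only [k1', k2, k3, if_false] at h2
        cases b' <;> simp at h2 <;> omega

theorem good_of_wt {D : Dat V} {l : List V} (hW : D.W = l.toFinset) (hw : D.w = wt l)
    (he : D.e ∈ D.W) (hal : ∀ x ∈ D.W, x ≠ D.e → (D.al x).1 ∈ D.W ∧ (D.al x).1 ≠ x)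
    (hbe : ∀ x ∈ D.W, x ≠ D.e → (D.be x).1 ∈ D.W ∧ (D.be x).1 ≠ x)
    (hne : ∀ x ∈ D.W, x ≠ D.e → D.al x ≠ D.be x) (h3 : ∀ z, ∃ x ∈ D.W, x ≠ D.e ∧ x ≠ z) :
    D.Good := by
  obtain ⟨W, w, e, al, be⟩ := D
  simp only at hW hw
  subst hW hw
  refine ⟨he, hal, hbe, hne, h3, fun x _ => ?_, fun x _ => ?_, ?_, ?_, ?_⟩
  · exact lt_of_le_of_lt (Nat.one_le_pow _ _ (by norm_num)) (wt_gt l x)
  · exact_mod_cast unit_of_dvd l x (d := 2)
      (Dvd.dvd.mul_right (Dvd.dvd.pow (by norm_num) (by omega)) _)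
  · intro x hx Y Z hY hZ hYZ hn
    simp only [List.mem_toFinset] at hx hY hZ
    have h1 : ((av l x * (sg Y.2 * wt l Y.1 - sg Z.2 * wt l Z.1) : ℤ) : ZMod (wt l x)) =
        (dq l x Y Z : ℤ) := by
      have e1 := av_mul_wt l x Y.1
      have e2 := av_mul_wt l x Z.1
      unfold dq
      push_cast at e1 e2 ⊢
      linear_combination sg Y.2 * e1 - sg Z.2 * e2
    have h2 : dq l x Y Z ≠ 0 := by
      intro h0
      have hi : ∀ {y : V}, y ∈ l → l.idxOf y < l.length := fun hy => List.idxOf_lt_length_iff.2 hy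
      have h3 := fun j : V => five_zero (c0 := sg Y.2 - sg Z.2) (c1 := -sg Y.2) (c2 := sg Z.2)
        (c3 := 0) (c4 := 0) (hi hx) (hi hY) (hi hZ) (hi hx) (hi hx)
        (by cases Y.2 <;> cases Z.2 <;> simp) (by simp only [dq, av] at h0; linear_combination h0)
        (l.idxOf j)
      have e : ∀ {y : V} (j : V), y ∈ l → (l.idxOf y = l.idxOf j ↔ y = j) :=
        fun _ hy => List.idxOf_inj hy
      simp only [e _ hx, e _ hY, e _ hZ, ite_self, add_zero] at h3
      by_cases k1 : x = Y.1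
      · have h5 := h3 Z.1
        have k2 : ¬ x = Z.1 := fun k2 => hn ⟨k1.symm, k2.symm⟩
        rw [if_neg k2, if_neg (k1 ▸ k2), if_pos rfl] at h5
        cases h : Z.2 <;> simp [h] at h5
      · have h4 := h3 Y.1
        rw [if_neg k1, zero_add] at h4
        exact hYZ (comb1 rfl h4)
    have h3 : IsUnit ((dq l x Y Z : ℤ) : ZMod (wt l x)) := by
      have := unit_of_dvd l x (d := (dq l x Y Z).natAbs) (by
        unfold MM
        refine Dvd.dvd.mul_left (List.dvd_prod ?_) _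
        exact List.mem_map.2 ⟨(x, Y, Z), List.pair_mem_product.2 ⟨hx, List.pair_mem_product.2
          ⟨mem_sl.2 hY, mem_sl.2 hZ⟩⟩, if_neg h2⟩)
      rcases Int.natAbs_eq (dq l x Y Z) with h | h
      · rw [h, Int.cast_natCast]; exact this
      · rw [h, Int.cast_neg, Int.cast_natCast]; exact this.neg
    rw [← h1, Int.cast_mul] at h3
    exact isUnit_of_mul_isUnit_right h3
  · intro x hx Y Z A B hY hZ hA hB hAB hAx hBx h
    simp only [List.mem_toFinset] at hx hY hZ hA hB
    have h1 := fun j => @comb_zero V _ l x hx Y Z A B hY hZ hA hB 1 (by norm_num)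
      (by rw [one_mul]; exact h) j
    exact (comb2 hAB (Or.inl rfl) (by rintro j (rfl | rfl); exacts [h1 _ hA hAx, h1 _ hB hBx])).2
  · intro x hx Y Z A B hY hZ hA hB hAB hAx hBx h
    simp only [List.mem_toFinset] at hx hY hZ hA hB
    have h1 := fun j => @comb_zero V _ l x hx Y Z A B hY hZ hA hB 2 (by norm_num) h j
    exact absurd (comb2 hAB (Or.inr rfl)
      (by rintro j (rfl | rfl); exacts [h1 _ hA hAx, h1 _ hB hBx])).1 (by norm_num)

end Pool.Agent.MP_666b32_lc.H56
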